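import Pool.Agent.Lib.H16A.Defs
import Pool.Agent.Lib.H16C.Defs

/-!
# H16G: definitions

See PROOF.md.  `E : Cub` with `E.a = 0` (`y² = x³ + b x + c`, integers), `K ⊆ L ⊆ Ω` fields of
characteristic zero, `Ω` algebraically closed and algebraic over `L`; `WK E K` = the curve over `K`;
`Pt (WK E K) Ω` = its points over `Ω`; `R : Rts E Ω` = the three roots.
-/

open Polynomial NumberField IsDedekindDomain H16A H16C

namespace H16G

/-- the curve `E` over the field `K` -/
abbrev WK (E : Cub) (K : Type*) [Field K] : WeierstrassCurve.Affine K :=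
  WeierstrassCurve.Affine.baseChange E.W K

/-- the three roots of `f` -/
structure Rts (E : Cub) (Ω : Type*) [Field Ω] where
  /-- the roots -/
  e : Fin 3 → Ω
  poly_eq : E.poly Ω = ∏ i, (X - C (e i))
  inj : Function.Injective e

theorem Rts.root {E : Cub} {Ω : Type*} [Field Ω] (R : Rts E Ω) (i : Fin 3) :
    E.val (R.e i) = 0 := by
  rw [← E.eval_poly, R.poly_eq, eval_prod]
  exact Finset.prod_eq_zero (Finset.mem_univ i) (by simp)

/-- the homomorphism `L[θ] → Ω`, `θ ↦ e i` -/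
noncomputable def Rts.ev {E : Cub} {Ω : Type*} [Field Ω] (R : Rts E Ω) (L : Type*) [Field L]
    [Algebra L Ω] (i : Fin 3) : E.Alg L →+* Ω :=
  E.evAt (algebraMap L Ω) (R.e i) (R.root i)

section

variable {Ω : Type*} [Field Ω] {V : WeierstrassCurve.Affine Ω}

open Classical in
/-- the sign of the point `T` of order two at the root `e`: `1` if `T = O` or `x(T) = e`, and `-1`
otherwise -/
noncomputable def sg (e : Ω) (T : V.Point) : Ω := if T = 0 ∨ xc T = e then 1 else -1

/-- the function `((x - e)² - f'(e)) / (2 y)` -/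
noncomputable def gg (e : Ω) (Q : V.Point) : Ω :=
  ((xc Q - e) ^ 2 - (3 * e ^ 2 + V.a₄)) / (2 * yc Q)

/-- `e 0, e 1, e 2` are the three roots of `x³ + a₄ x + a₆` -/
structure RtV (V : WeierstrassCurve.Affine Ω) (e : Fin 3 → Ω) : Prop where
  inj : Function.Injective e
  sum : e 0 + e 1 + e 2 = 0
  a4 : e 0 * e 1 + e 0 * e 2 + e 1 * e 2 = V.a₄
  a6 : e 0 * e 1 * e 2 = -V.a₆

theorem RtV.root {V : WeierstrassCurve.Affine Ω} {e : Fin 3 → Ω} (h : RtV V e) (i : Fin 3) :
    e i ^ 3 + V.a₄ * e i + V.a₆ = 0 := by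
  have h6 : V.a₆ = -(e 0 * e 1 * e 2) := by rw [h.a6, neg_neg]
  have h2 : e 2 = -e 0 - e 1 := by linear_combination h.sum
  rw [← h.a4, h6]
  fin_cases i <;> simp only [Fin.zero_eta, Fin.mk_one, Fin.reduceFinMk] <;> rw [h2] <;> ring

end

section

variable {E : Cub} {K L Ω : Type*} [Field K] [Field L] [Field Ω] [Algebra K L] [Algebra K Ω]
  [Algebra L Ω] [IsScalarTower K L Ω]

open Classical in
/-- `c σ` is the point of order two whose signs are `σ (w i) / w j`, `σ (e i) = e j` -/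
def As (R : Rts E Ω) (w : Fin 3 → Ω) (c : (Ω ≃ₐ[L] Ω) → Pt (WK E K) Ω) : Prop :=
  (∀ i, w i ≠ 0) ∧ (∀ σ, 2 • c σ = 0) ∧
    ∀ (σ : Ω ≃ₐ[L] Ω) (i j : Fin 3), σ (R.e i) = R.e j → σ (w i) = sg (R.e j) (c σ) * w j

end

end H16G
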