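import Pool.Agent.Lib.H16C.D1
import Pool.Agent.Lib.H16G.Defs

/-!
# G1 (M, pure field identities): duplication

`gg e Q = ((x - e)² - (3 e² + a₄)) / (2 y)`.  From `xc_dbl`, `yc_dbl` (H16C/D1).  For the first statement:
`(x² - a₄)² - 8 a₆ x - 4 e (x³ + a₄ x + a₆) = ((x - e)² - (3 e² + a₄))²` if `a₆ = - e³ - a₄ e` (expand both sides), and
`4 y² = 4 (x³ + a₄ x + a₆)` (`eqn`).  For the second one: `∏_i ((x - e_i)² - (3 e_i² + a₄))` is equal to the right-hand side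
of `yc_dbl` after the substitution `e_2 = - e_0 - e_1`, `a₄ = ..`, `a₆ = ..` (`ring`; no relation between `x` and `y` is
needed, `y²` does not occur).
-/

open Polynomial H16A H16C

namespace H16G

variable {Ω : Type*} [Field Ω] [DecidableEq Ω] {V : WeierstrassCurve.Affine Ω} [V.IsShortNF]

theorem gg_sq (h2 : (2 : Ω) ≠ 0) {e : Ω} (he : e ^ 3 + V.a₄ * e + V.a₆ = 0) {Q : V.Point}
    (hQ : Q ≠ 0) (hy : yc Q ≠ 0) : gg e Q ^ 2 = xc (2 • Q) - e := by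
  have h1 := xc_dbl h2 hQ hy
  have h3 := eqn hQ
  have h4 : (2 * yc Q) ^ 2 ≠ 0 := pow_ne_zero 2 (mul_ne_zero h2 hy)
  unfold gg
  rw [div_pow, div_eq_iff h4]
  linear_combination (-1 : Ω) * h1 + 4 * e * h3 + (8 * xc Q + 4 * e) * he

theorem gg_prod (h2 : (2 : Ω) ≠ 0) {e : Fin 3 → Ω} (h : RtV V e) {Q : V.Point}
    (hQ : Q ≠ 0) (hy : yc Q ≠ 0) : ∏ i, gg (e i) Q = yc (2 • Q) := by
  have h1 := yc_dbl h2 hQ hy
  have h4 : (2 * yc Q) ≠ 0 := mul_ne_zero h2 hy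
  have h5 : e 2 = -e 0 - e 1 := by linear_combination h.sum
  have h6 : V.a₆ = -(e 0 * e 1 * e 2) := by rw [h.a6, neg_neg]
  rw [Fin.prod_univ_three]
  unfold gg
  rw [div_mul_div_comm, div_mul_div_comm, div_eq_iff (mul_ne_zero (mul_ne_zero h4 h4) h4)]
  have h7 : yc (2 • Q) * (2 * yc Q * (2 * yc Q) * (2 * yc Q)) = 8 * yc Q ^ 3 * yc (2 • Q) := by ring
  rw [h7, h1, h6, ← h.a4, h5]
  ring

end H16G
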