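import Pool.Agent.Lib.H16C.D1
import Pool.Agent.Lib.H16G.Defs

/-!
# G2 (M, pure field identities): translation by a point of order two

`T = O`: `sg = 1`.  Otherwise `yc T = 0` (`two_smul_eq_zero_iff`), `xc T` is a root of `x³ + a₄ x + a₆ = ∏ (x - e_i)`, so `xc T = e_j`.
`xc Q ≠ e_j` because `yc Q ≠ 0` (`eqn`).  Write `Q = .some x y _`, `T = .some (e_j) 0 _`; the slope is `y / (x - e_j)`, and
`x(Q+T) = y²/(x - e_j)² - x - e_j`, `y(Q+T) = -(slope (x(Q+T) - x) + y)`; with `y² = (x - e_0)(x - e_1)(x - e_2)`: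
`x(Q+T) = e_j + f'(e_j)/(x - e_j)`, `y(Q+T) = - y f'(e_j)/(x - e_j)²`, `f'(e_j) = 3 e_j² + a₄ = ∏_{i ≠ j} (e_j - e_i) ≠ 0`.
So `y(Q+T) ≠ 0` and, for `i = j`: `gg (e_j) (Q+T) = (f'(e_j)²/(x-e_j)² - f'(e_j)) / (2 y(Q+T)) = ((x-e_j)² - f'(e_j))/(2 y)`; for `i ≠ j`, `k` the
third index: `f'(e_i) = (e_i - e_j)(e_i - e_k)`, `x(Q+T) - e_i = (e_j - e_i) (x - e_k)/(x - e_j)`: `gg (e_i) (Q+T) = - gg (e_i) Q`
(`field_simp`, `ring`, after `e_2 = - e_0 - e_1`; nine cases `i, j`: `fin_cases`; or prove it for three pairwise different roots `a, b, c` with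
`a + b + c = 0`, `a₄ = ab + ac + bc` and apply it six times).
-/

open Polynomial H16A H16C

namespace H16G

variable {Ω : Type*} [Field Ω] [DecidableEq Ω] {V : WeierstrassCurve.Affine Ω} [V.IsShortNF]

theorem g2_yadd {P Q : V.Point} (hP : P ≠ 0) (hQ : Q ≠ 0) (h : xc P ≠ xc Q) :
    yc (P + Q) = -((yc P - yc Q) / (xc P - xc Q) * (xc (P + Q) - xc P) + yc P) := by
  rw [D1_xc_add hP hQ h]
  rcases P with _ | ⟨x, y, h1⟩
  · exact absurd rfl hP
  rcases Q with _ | ⟨x', y', h2⟩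
  · exact absurd rfl hQ
  change x ≠ x' at h
  rw [WeierstrassCurve.Affine.Point.add_of_X_ne h]
  change V.addY x x' y (V.slope x x' y y') = -((y - y') / (x - x') * (((y - y') / (x - x')) ^ 2 - x - x' - x) + y)
  rw [WeierstrassCurve.Affine.slope_of_X_ne h, WeierstrassCurve.Affine.addY,
    WeierstrassCurve.Affine.negAddY, WeierstrassCurve.Affine.negY, WeierstrassCurve.Affine.addX,
    WeierstrassCurve.a₁_of_isShortNF, WeierstrassCurve.a₂_of_isShortNF, WeierstrassCurve.a₃_of_isShortNF]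
  ring

/-- the case `i = j` -/
theorem g2_same {a b c x y X Y : Ω} (h2 : (2 : Ω) ≠ 0) (hab : a ≠ b) (hac : a ≠ c) (hs : a + b + c = 0)
    (hy : y ≠ 0) (hxa : x - a ≠ 0) (he : y ^ 2 = (x - a) * (x - b) * (x - c))
    (hX : X = a + (a - b) * (a - c) / (x - a)) (hY : Y = -(y * ((a - b) * (a - c)) / (x - a) ^ 2)) :
    ((X - a) ^ 2 - (3 * a ^ 2 + (a * b + a * c + b * c))) / (2 * Y) =
      ((x - a) ^ 2 - (3 * a ^ 2 + (a * b + a * c + b * c))) / (2 * y) := by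
  have hc : c = -a - b := by linear_combination hs
  subst hc
  have h1 : a - b ≠ 0 := sub_ne_zero.2 hab
  have h3 : a - (-a - b) ≠ 0 := sub_ne_zero.2 hac
  have hYY : Y ≠ 0 := by
    rw [hY]
    exact neg_ne_zero.2 (div_ne_zero (mul_ne_zero hy (mul_ne_zero h1 h3)) (pow_ne_zero 2 hxa))
  rw [div_eq_div_iff (mul_ne_zero h2 hYY) (mul_ne_zero h2 hy), hX, hY]
  field_simp
  ring

theorem g2_diff {a b c x y X Y : Ω} (h2 : (2 : Ω) ≠ 0) (hab : a ≠ b) (hac : a ≠ c) (hs : a + b + c = 0)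
    (hy : y ≠ 0) (hxa : x - a ≠ 0) (he : y ^ 2 = (x - a) * (x - b) * (x - c))
    (hX : X = a + (a - b) * (a - c) / (x - a)) (hY : Y = -(y * ((a - b) * (a - c)) / (x - a) ^ 2)) :
    ((X - b) ^ 2 - (3 * b ^ 2 + (a * b + a * c + b * c))) / (2 * Y) =
      -(((x - b) ^ 2 - (3 * b ^ 2 + (a * b + a * c + b * c))) / (2 * y)) := by
  have hc : c = -a - b := by linear_combination hs
  subst hc
  have h1 : a - b ≠ 0 := sub_ne_zero.2 hab
  have h3 : a - (-a - b) ≠ 0 := sub_ne_zero.2 hac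
  have hYY : Y ≠ 0 := by
    rw [hY]
    exact neg_ne_zero.2 (div_ne_zero (mul_ne_zero hy (mul_ne_zero h1 h3)) (pow_ne_zero 2 hxa))
  rw [← neg_div, div_eq_div_iff (mul_ne_zero h2 hYY) (mul_ne_zero h2 hy), hX, hY]
  field_simp
  ring

theorem g2_core (h2 : (2 : Ω) ≠ 0) {a b c : Ω} (hab : a ≠ b) (hac : a ≠ c) (hs : a + b + c = 0)
    (h4 : a * b + a * c + b * c = V.a₄) (h6 : a * b * c = -V.a₆) {T : V.Point} (hT0 : T ≠ 0)
    (hyT : yc T = 0) (hxT : xc T = a) {Q : V.Point} (hQ : Q ≠ 0) (hy : yc Q ≠ 0) :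
    Q + T ≠ 0 ∧ yc (Q + T) ≠ 0 ∧ gg a (Q + T) = gg a Q ∧ gg b (Q + T) = -gg b Q ∧ gg c (Q + T) = -gg c Q := by
  have h5 : c = -a - b := by linear_combination hs
  have h6' : V.a₆ = -(a * b * c) := by rw [h6, neg_neg]
  have he : yc Q ^ 2 = (xc Q - a) * (xc Q - b) * (xc Q - c) := by
    rw [eqn hQ, h6', ← h4, h5]
    ring
  have hxa : xc Q - a ≠ 0 := by
    intro h0
    rw [h0, zero_mul, zero_mul] at he
    exact hy (pow_eq_zero_iff two_ne_zero |>.1 he)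
  have hne : xc Q ≠ xc T := by rw [hxT]; exact sub_ne_zero.1 hxa
  have hX : xc (Q + T) = a + (a - b) * (a - c) / (xc Q - a) := by
    rw [D1_xc_add hQ hT0 hne, hxT, hyT, sub_zero, div_pow, he]
    field_simp
    rw [h5]
    ring
  have hY : yc (Q + T) = -(yc Q * ((a - b) * (a - c)) / (xc Q - a) ^ 2) := by
    rw [g2_yadd hQ hT0 hne, hX, hxT, hyT, sub_zero]
    field_simp
    ring
  have h1 : a - b ≠ 0 := sub_ne_zero.2 hab
  have h3 : a - c ≠ 0 := sub_ne_zero.2 hac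
  refine ⟨(ne_zero_of_xc_ne hQ hT0 hne).1, ?_, ?_, ?_, ?_⟩
  · rw [hY]
    exact neg_ne_zero.2 (div_ne_zero (mul_ne_zero hy (mul_ne_zero h1 h3)) (pow_ne_zero 2 hxa))
  · unfold gg
    rw [← h4]
    exact g2_same h2 hab hac hs hy hxa he hX hY
  · unfold gg
    rw [← h4]
    exact g2_diff h2 hab hac hs hy hxa he hX hY
  · unfold gg
    rw [← h4]
    have h7 := g2_diff (x := xc Q) (y := yc Q) (X := xc (Q + T)) (Y := yc (Q + T)) h2 hac hab
      (by linear_combination hs) hy hxa (by rw [he]; ring) (by rw [hX]; ring) (by rw [hY]; ring)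
    have e : a * b + a * c + b * c = a * c + a * b + c * b := by ring
    rw [e]
    exact h7

theorem gg_add (h2 : (2 : Ω) ≠ 0) {e : Fin 3 → Ω} (h : RtV V e) {T : V.Point} (hT : 2 • T = 0)
    {Q : V.Point} (hQ : Q ≠ 0) (hy : yc Q ≠ 0) (i : Fin 3) :
    Q + T ≠ 0 ∧ yc (Q + T) ≠ 0 ∧ gg (e i) (Q + T) = sg (e i) T * gg (e i) Q := by
  by_cases hT0 : T = 0
  · rw [hT0, add_zero]
    refine ⟨hQ, hy, ?_⟩
    unfold sg
    rw [if_pos (Or.inl rfl), one_mul]
  have hyT : yc T = 0 := (two_smul_eq_zero_iff h2 hT0).1 hT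
  have h01 : e 0 ≠ e 1 := fun h' => by simpa using h.inj h'
  have h02 : e 0 ≠ e 2 := fun h' => by simpa using h.inj h'
  have h12 : e 1 ≠ e 2 := fun h' => by simpa using h.inj h'
  have h6 : V.a₆ = -(e 0 * e 1 * e 2) := by rw [h.a6, neg_neg]
  have h5 : e 2 = -e 0 - e 1 := by linear_combination h.sum
  have hroot : (xc T - e 0) * (xc T - e 1) * (xc T - e 2) = 0 := by
    have h7 := eqn hT0
    rw [hyT, h6, ← h.a4] at h7
    rw [h5] at h7 ⊢
    linear_combination -h7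
  have hsg : ∀ a : Ω, xc T = a → sg a T = 1 := by
    intro a ha
    unfold sg
    rw [if_pos (Or.inr ha)]
  have hsg' : ∀ a : Ω, xc T ≠ a → sg a T = -1 := by
    intro a ha
    unfold sg
    rw [if_neg (not_or.2 ⟨hT0, ha⟩)]
  rcases mul_eq_zero.1 hroot with hr | hr
  · rcases mul_eq_zero.1 hr with hr | hr
    · have hx : xc T = e 0 := sub_eq_zero.1 hr
      obtain ⟨k1, k2, k3, k4, k5⟩ := g2_core h2 h01 h02 h.sum h.a4 h.a6 hT0 hyT hx hQ hy
      refine ⟨k1, k2, ?_⟩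
      fin_cases i
      · show gg (e 0) (Q + T) = sg (e 0) T * gg (e 0) Q
        rw [hsg _ hx, one_mul, k3]
      · show gg (e 1) (Q + T) = sg (e 1) T * gg (e 1) Q
        rw [hsg' _ (by rw [hx]; exact h01), neg_one_mul, k4]
      · show gg (e 2) (Q + T) = sg (e 2) T * gg (e 2) Q
        rw [hsg' _ (by rw [hx]; exact h02), neg_one_mul, k5]
    · have hx : xc T = e 1 := sub_eq_zero.1 hr
      obtain ⟨k1, k2, k3, k4, k5⟩ := g2_core h2 h01.symm h12 (by linear_combination h.sum)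
        (by rw [← h.a4]; ring) (by rw [← h.a6]; ring) hT0 hyT hx hQ hy
      refine ⟨k1, k2, ?_⟩
      fin_cases i
      · show gg (e 0) (Q + T) = sg (e 0) T * gg (e 0) Q
        rw [hsg' _ (by rw [hx]; exact h01.symm), neg_one_mul, k4]
      · show gg (e 1) (Q + T) = sg (e 1) T * gg (e 1) Q
        rw [hsg _ hx, one_mul, k3]
      · show gg (e 2) (Q + T) = sg (e 2) T * gg (e 2) Q
        rw [hsg' _ (by rw [hx]; exact h12), neg_one_mul, k5]
  · have hx : xc T = e 2 := sub_eq_zero.1 hr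
    obtain ⟨k1, k2, k3, k4, k5⟩ := g2_core h2 h02.symm h12.symm (by linear_combination h.sum)
      (by rw [← h.a4]; ring) (by rw [← h.a6]; ring) hT0 hyT hx hQ hy
    refine ⟨k1, k2, ?_⟩
    fin_cases i
    · show gg (e 0) (Q + T) = sg (e 0) T * gg (e 0) Q
      rw [hsg' _ (by rw [hx]; exact h02.symm), neg_one_mul, k4]
    · show gg (e 1) (Q + T) = sg (e 1) T * gg (e 1) Q
      rw [hsg' _ (by rw [hx]; exact h12.symm), neg_one_mul, k5]
    · show gg (e 2) (Q + T) = sg (e 2) T * gg (e 2) Q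
      rw [hsg _ hx, one_mul, k3]

end H16G
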