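import Pool.Agent.Lib.H16C.D1
import Pool.Agent.Lib.H16G.Defs

/-!
# G3 (M, many small): the signs

The points `T` with `2 T = 0` are `O` and the three points `T_j = (e_j, 0)` (`two_smul_eq_zero_iff`, `eqn`, `exists_pt`:
`V.IsElliptic` or directly `Point.some` with `equation`, nonsingular because `3 e_j² + a₄ ≠ 0`; `x³ + a₄ x + a₆ = ∏ (x - e_i)`).
`sg (e i) O = 1`, `sg (e i) T_j = 1` if `i = j`, `-1` otherwise.  `T_j + T_j = O`, `T_j + T_k = T_l` for `{j,k,l} = {0,1,2}` (the sum is of order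
two, and is different from `O`, `T_j`, `T_k`).  All the statements are checks on these four points.
-/

open Polynomial H16A H16C

namespace H16G

variable {Ω : Type*} [Field Ω] [DecidableEq Ω] {V : WeierstrassCurve.Affine Ω}

theorem sg_cases (e : Ω) (T : V.Point) : sg e T = 1 ∨ sg e T = -1 := by
  unfold sg
  split_ifs
  · exact Or.inl rfl
  · exact Or.inr rfl

theorem sg_sq (e : Ω) (T : V.Point) : sg e T * sg e T = 1 := by
  rcases sg_cases e T with h | h <;> rw [h] <;> ring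

theorem sg_zero (e : Ω) : sg e (0 : V.Point) = 1 := by
  unfold sg
  rw [if_pos (Or.inl rfl)]

variable [V.IsShortNF]

omit [DecidableEq Ω] [V.IsShortNF] in
theorem G3_fac {e : Fin 3 → Ω} (h : RtV V e) (x : Ω) :
    x ^ 3 + V.a₄ * x + V.a₆ = (x - e 0) * (x - e 1) * (x - e 2) := by
  have h6 : V.a₆ = -(e 0 * e 1 * e 2) := by rw [h.a6, neg_neg]
  rw [← h.a4, h6]
  linear_combination x ^ 2 * h.sum

omit [DecidableEq Ω] [V.IsShortNF] in
theorem G3_sg {e : Fin 3 → Ω} (h : RtV V e) {T : V.Point} {j : Fin 3} (h0 : T ≠ 0) (hx : xc T = e j)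
    (i : Fin 3) : sg (e i) T = if i = j then 1 else -1 := by
  unfold sg
  by_cases hij : i = j
  · rw [if_pos hij, if_pos (Or.inr (by rw [hx, hij]))]
  · rw [if_neg hij, if_neg]
    rintro (h1 | h1)
    · exact h0 h1
    · exact hij (h.inj (h1.symm.trans hx))

theorem G3_pts (h2 : (2 : Ω) ≠ 0) {e : Fin 3 → Ω} (h : RtV V e) {T : V.Point} (hT : 2 • T = 0) :
    T = 0 ∨ ∃ j, T ≠ 0 ∧ xc T = e j ∧ yc T = 0 := by
  by_cases h0 : T = 0
  · exact Or.inl h0
  right
  have hy := (two_smul_eq_zero_iff h2 h0).1 hT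
  have h1 := eqn h0
  rw [hy, G3_fac h] at h1
  have h3 : (xc T - e 0) * (xc T - e 1) * (xc T - e 2) = 0 := by
    rw [← h1]
    ring
  rcases mul_eq_zero.1 h3 with h4 | h4
  · rcases mul_eq_zero.1 h4 with h5 | h5
    · exact ⟨0, h0, sub_eq_zero.1 h5, hy⟩
    · exact ⟨1, h0, sub_eq_zero.1 h5, hy⟩
  · exact ⟨2, h0, sub_eq_zero.1 h4, hy⟩

theorem G3_sum (h2 : (2 : Ω) ≠ 0) {e : Fin 3 → Ω} (h : RtV V e) {T T' : V.Point} (hT : 2 • T = 0)
    (hT' : 2 • T' = 0) {j k : Fin 3} (h0 : T ≠ 0) (h0' : T' ≠ 0) (hx : xc T = e j) (hx' : xc T' = e k)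
    (hjk : j ≠ k) : ∃ l, l ≠ j ∧ l ≠ k ∧ T + T' ≠ 0 ∧ xc (T + T') = e l := by
  have hne : xc T ≠ xc T' := by
    rw [hx, hx']
    exact fun h3 => hjk (h.inj h3)
  have hs := (ne_zero_of_xc_ne h0 h0' hne).1
  have h2s : 2 • (T + T') = 0 := by rw [nsmul_add, hT, hT', add_zero]
  rcases G3_pts h2 h h2s with h3 | ⟨l, h3, h4, h5⟩
  · exact absurd h3 hs
  · refine ⟨l, ?_, ?_, hs, h4⟩
    · rintro rfl
      have h6 : T + T' = T := pt_ext hs h0 (h4.trans hx.symm)
        (h5.trans ((two_smul_eq_zero_iff h2 h0).1 hT).symm)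
      exact h0' (add_eq_left.1 h6)
    · rintro rfl
      have h6 : T + T' = T' := pt_ext hs h0' (h4.trans hx'.symm)
        (h5.trans ((two_smul_eq_zero_iff h2 h0').1 hT').symm)
      exact h0 (add_eq_right.1 h6)

omit [DecidableEq Ω] in
theorem G3_ex {e : Fin 3 → Ω} (h : RtV V e) (j : Fin 3) :
    ∃ T : V.Point, T ≠ 0 ∧ xc T = e j ∧ yc T = 0 := by
  have h01 : e 0 - e 1 ≠ 0 := sub_ne_zero.2 fun h3 => absurd (h.inj h3) (by decide)
  have h02 : e 0 - e 2 ≠ 0 := sub_ne_zero.2 fun h3 => absurd (h.inj h3) (by decide)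
  have h12 : e 1 - e 2 ≠ 0 := sub_ne_zero.2 fun h3 => absurd (h.inj h3) (by decide)
  have hd : 3 * e j ^ 2 + V.a₄ ≠ 0 := by
    rw [← h.a4]
    fin_cases j
    · have h3 : 3 * e 0 ^ 2 + (e 0 * e 1 + e 0 * e 2 + e 1 * e 2) = (e 0 - e 1) * (e 0 - e 2) := by
        linear_combination (2 * e 0) * h.sum
      exact fun h4 => (mul_ne_zero h01 h02) (h3.symm.trans h4)
    · have h3 : 3 * e 1 ^ 2 + (e 0 * e 1 + e 0 * e 2 + e 1 * e 2) = -((e 0 - e 1) * (e 1 - e 2)) := by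
        linear_combination (2 * e 1) * h.sum
      exact fun h4 => (neg_ne_zero.2 (mul_ne_zero h01 h12)) (h3.symm.trans h4)
    · have h3 : 3 * e 2 ^ 2 + (e 0 * e 1 + e 0 * e 2 + e 1 * e 2) = (e 0 - e 2) * (e 1 - e 2) := by
        linear_combination (2 * e 2) * h.sum
      exact fun h4 => (mul_ne_zero h02 h12) (h3.symm.trans h4)
  have heq : V.Equation (e j) 0 := by
    rw [D1_equation, h.root j]
    ring
  have hns : V.Nonsingular (e j) 0 := by
    rw [WeierstrassCurve.Affine.nonsingular_iff]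
    refine ⟨heq, Or.inl ?_⟩
    rw [mul_zero, WeierstrassCurve.a₂_of_isShortNF]
    intro h3
    apply hd
    rw [h3]
    ring
  exact ⟨.some _ _ hns, WeierstrassCurve.Affine.Point.some_ne_zero _, rfl, rfl⟩


theorem sg_add (h2 : (2 : Ω) ≠ 0) {e : Fin 3 → Ω} (h : RtV V e) {T T' : V.Point} (hT : 2 • T = 0)
    (hT' : 2 • T' = 0) (i : Fin 3) : sg (e i) (T + T') = sg (e i) T * sg (e i) T' := by
  rcases G3_pts h2 h hT with h0 | ⟨j, h0, hx, hy⟩
  · rw [h0, zero_add, sg_zero, one_mul]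
  rcases G3_pts h2 h hT' with h0' | ⟨k, h0', hx', hy'⟩
  · rw [h0', add_zero, sg_zero, mul_one]
  by_cases hjk : j = k
  · have h3 : T = T' := pt_ext h0 h0' (by rw [hx, hx', hjk]) (hy.trans hy'.symm)
    rw [← h3, sg_sq, ← two_nsmul, hT, sg_zero]
  · obtain ⟨l, hl1, hl2, hl3, hl4⟩ := G3_sum h2 h hT hT' h0 h0' hx hx' hjk
    rw [G3_sg h h0 hx, G3_sg h h0' hx', G3_sg h hl3 hl4]
    have h5 : ∀ i j k l : Fin 3, j ≠ k → l ≠ j → l ≠ k →
        (i = j ∧ i ≠ k ∧ i ≠ l) ∨ (i ≠ j ∧ i = k ∧ i ≠ l) ∨ (i ≠ j ∧ i ≠ k ∧ i = l) := by decide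
    rcases h5 i j k l hjk hl1 hl2 with ⟨a1, a2, a3⟩ | ⟨a1, a2, a3⟩ | ⟨a1, a2, a3⟩
    · rw [if_pos a1, if_neg a2, if_neg a3, one_mul]
    · rw [if_neg a1, if_pos a2, if_neg a3, mul_one]
    · rw [if_neg a1, if_neg a2, if_pos a3]
      ring

theorem sg_prod (h2 : (2 : Ω) ≠ 0) {e : Fin 3 → Ω} (h : RtV V e) {T : V.Point} (hT : 2 • T = 0) :
    ∏ i, sg (e i) T = 1 := by
  rcases G3_pts h2 h hT with h0 | ⟨j, h0, hx, hy⟩
  · rw [h0]
    exact Finset.prod_eq_one fun i _ => sg_zero _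
  · rw [Fin.prod_univ_three, G3_sg h h0 hx, G3_sg h h0 hx, G3_sg h h0 hx]
    fin_cases j <;> simp

theorem sg_inj (h2 : (2 : Ω) ≠ 0) {e : Fin 3 → Ω} (h : RtV V e) {T T' : V.Point} (hT : 2 • T = 0)
    (hT' : 2 • T' = 0) (hs : ∀ i, sg (e i) T = sg (e i) T') : T = T' := by
  have hne : (1 : Ω) ≠ -1 := by
    intro h3
    apply h2
    linear_combination h3
  rcases G3_pts h2 h hT with h0 | ⟨j, h0, hx, hy⟩
  · rcases G3_pts h2 h hT' with h0' | ⟨k, h0', hx', hy'⟩
    · rw [h0, h0']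
    · exfalso
      have h3 : ∃ i, i ≠ k := exists_ne k
      obtain ⟨i, hi⟩ := h3
      have h4 := hs i
      rw [h0, sg_zero, G3_sg h h0' hx', if_neg hi] at h4
      exact hne h4
  · rcases G3_pts h2 h hT' with h0' | ⟨k, h0', hx', hy'⟩
    · exfalso
      have h3 : ∃ i, i ≠ j := exists_ne j
      obtain ⟨i, hi⟩ := h3
      have h4 := hs i
      rw [h0', sg_zero, G3_sg h h0 hx, if_neg hi] at h4
      exact hne h4.symm
    · have h4 := hs j
      rw [G3_sg h h0 hx, G3_sg h h0' hx', if_pos rfl] at h4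
      by_cases hjk : j = k
      · exact pt_ext h0 h0' (by rw [hx, hx', hjk]) (hy.trans hy'.symm)
      · rw [if_neg hjk] at h4
        exact absurd h4 hne

theorem sg_surj (h2 : (2 : Ω) ≠ 0) {e : Fin 3 → Ω} (h : RtV V e) (s : Fin 3 → Ω)
    (hs : ∀ i, s i = 1 ∨ s i = -1) (hp : ∏ i, s i = 1) :
    ∃ T : V.Point, 2 • T = 0 ∧ ∀ i, sg (e i) T = s i := by
  have hne : (1 : Ω) ≠ -1 := by
    intro h3
    apply h2
    linear_combination h3
  have key : (∀ i, s i = 1) ∨ ∃ j, ∀ i, s i = if i = j then 1 else -1 := by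
    rw [Fin.prod_univ_three] at hp
    rcases hs 0 with h3 | h3 <;> rcases hs 1 with h4 | h4 <;> rcases hs 2 with h5 | h5
    · left
      intro i
      fin_cases i
      · exact h3
      · exact h4
      · exact h5
    · rw [h3, h4, h5] at hp
      exact absurd (by linear_combination -hp) hne
    · rw [h3, h4, h5] at hp
      exact absurd (by linear_combination -hp) hne
    · right
      refine ⟨0, fun i => ?_⟩
      fin_cases i
      · exact h3
      · exact h4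
      · exact h5
    · rw [h3, h4, h5] at hp
      exact absurd (by linear_combination -hp) hne
    · right
      refine ⟨1, fun i => ?_⟩
      fin_cases i
      · exact h3
      · exact h4
      · exact h5
    · right
      refine ⟨2, fun i => ?_⟩
      fin_cases i
      · exact h3
      · exact h4
      · exact h5
    · rw [h3, h4, h5] at hp
      exact absurd (by linear_combination -hp) hne
  rcases key with h3 | ⟨j, h3⟩
  · exact ⟨0, smul_zero _, fun i => by rw [sg_zero, h3]⟩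
  · obtain ⟨T, h0, hx, hy⟩ := G3_ex h j
    exact ⟨T, (two_smul_eq_zero_iff h2 h0).2 hy, fun i => by rw [G3_sg h h0 hx, h3]⟩

end H16G
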