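import Pool.Agent.Lib.H16C.Stm
import Pool.Agent.Lib.H16G.Defs

/-!
# G4 (S/M, many small): compatibility with homomorphisms of fields

`WK E K = ⟨0, E.a, 0, E.b, E.c⟩` over `K` (images of integers, `algebraMap ℤ K`).  `rtv`: compare the coefficients of
`E.poly Ω = ∏ (X - C (e i))` (`E.poly Ω = X³ + C a X² + C b X + C c`, `a = 0`), e.g. by evaluating at `0, 1, -1` or by `coeff`.
`ellK`: `Δ = 16 disc` for `a = 0`: `Δ = -16 (4 b³ + 27 c²)`, `disc = -4 b³ - 27 c²`.
`xc_map` etc.: cases on the point (`Point.map` of `some x y` is `some (ι x) (ι y)`); `sg_map`: `ι` is injective and `Point.map` is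
injective; `gg_map`: the coefficient `a₄` of `baseChange (WK E K) Ω'` is `ι` of that of `baseChange (WK E K) Ω` (`AlgHom.commutes`).
`act W Ω g = Point.map g` by definition.
-/

open Polynomial H16A H16C

namespace H16G

variable {E : Cub} {K : Type*} [Field K]

theorem g4_a2 (K : Type*) [Field K] (hE : E.a = 0) : (WK E K).a₂ = 0 := by
  show algebraMap ℤ K E.a = 0
  rw [hE, map_zero]

theorem shortK (hE : E.a = 0) : (WK E K).IsShortNF := by
  exact ⟨map_zero _, g4_a2 K hE, map_zero _⟩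

theorem ellK [CharZero K] (hE : E.a = 0) (hd : E.disc ≠ 0) : (WK E K).IsElliptic := by
  have h1 : (WK E K).a₁ = 0 := map_zero _
  have h2 : (WK E K).a₂ = 0 := g4_a2 K hE
  have h3 : (WK E K).a₃ = 0 := map_zero _
  have h4 : (WK E K).a₄ = (E.b : K) := by
    show algebraMap ℤ K E.b = _
    simp
  have h6 : (WK E K).a₆ = (E.c : K) := by
    show algebraMap ℤ K E.c = _
    simp
  refine ⟨isUnit_iff_ne_zero.2 ?_⟩
  have hΔ : (WK E K).Δ = 16 * (E.disc : K) := by
    unfold WeierstrassCurve.Δ WeierstrassCurve.b₂ WeierstrassCurve.b₄ WeierstrassCurve.b₆ WeierstrassCurve.b₈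
    rw [h1, h2, h3, h4, h6]
    unfold Cub.disc
    rw [hE]
    push_cast
    ring
  rw [hΔ]
  exact mul_ne_zero (by norm_num) (Int.cast_ne_zero.2 hd)

variable {Ω Ω' : Type*} [Field Ω] [Field Ω'] [Algebra K Ω] [Algebra K Ω']

theorem g4_coeff {R : Type*} [CommRing R] (a b c a' b' c' : R)
    (h : (X ^ 3 + C a * X ^ 2 + C b * X + C c : R[X]) = X ^ 3 + C a' * X ^ 2 + C b' * X + C c') :
    a = a' ∧ b = b' ∧ c = c' := by
  refine ⟨?_, ?_, ?_⟩
  · have h1 := congrArg (fun p : R[X] => p.coeff 2) h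
    simpa [coeff_X, coeff_C, coeff_X_pow] using h1
  · have h1 := congrArg (fun p : R[X] => p.coeff 1) h
    simpa [coeff_X, coeff_C, coeff_X_pow] using h1
  · have h1 := congrArg (fun p : R[X] => p.coeff 0) h
    simpa [coeff_X, coeff_C, coeff_X_pow] using h1

theorem rtv (hE : E.a = 0) (R : Rts E Ω) :
    RtV (WeierstrassCurve.Affine.baseChange (WK E K) Ω) R.e := by
  have h := R.poly_eq
  rw [Fin.prod_univ_three] at h
  have e1 : ((X - C (R.e 0)) * (X - C (R.e 1)) * (X - C (R.e 2)) : Polynomial Ω) =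
      X ^ 3 + C (-(R.e 0 + R.e 1 + R.e 2)) * X ^ 2 +
        C (R.e 0 * R.e 1 + R.e 0 * R.e 2 + R.e 1 * R.e 2) * X + C (-(R.e 0 * R.e 1 * R.e 2)) := by
    simp only [C_neg, C_add, C_mul]
    ring
  rw [e1] at h
  obtain ⟨h1, h2, h3⟩ := g4_coeff _ _ _ _ _ _ h
  refine ⟨R.inj, ?_, ?_, ?_⟩
  · rw [hE, Int.cast_zero] at h1
    rw [← neg_eq_zero]
    exact h1.symm
  · rw [← h2]
    show (E.b : Ω) = algebraMap K Ω (algebraMap ℤ K E.b)
    simp
  · have h4 : (WeierstrassCurve.Affine.baseChange (WK E K) Ω).a₆ = (E.c : Ω) := by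
      show algebraMap K Ω (algebraMap ℤ K E.c) = _
      simp
    rw [h4, h3, neg_neg]

/-- the images of the roots -/
def Rts.map (R : Rts E Ω) (ι : Ω →ₐ[K] Ω') : Rts E Ω' where
  e i := ι (R.e i)
  poly_eq := by
    have h := congrArg (Polynomial.map (ι : Ω →+* Ω')) R.poly_eq
    rw [E.poly_map, Polynomial.map_prod] at h
    rw [h]
    refine Finset.prod_congr rfl fun i _ => ?_
    simp
  inj := fun _ _ hij => R.inj (ι.injective hij)

open Classical in
theorem xc_map (W : WeierstrassCurve.Affine K) (ι : Ω →ₐ[K] Ω') (P : Pt W Ω) :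
    xc (WeierstrassCurve.Affine.Point.map (W' := W) ι P) = ι (xc P) := by
  rcases P with _ | ⟨x, y, h⟩
  · exact (map_zero ι).symm
  · rfl

open Classical in
theorem yc_map (W : WeierstrassCurve.Affine K) (ι : Ω →ₐ[K] Ω') (P : Pt W Ω) :
    yc (WeierstrassCurve.Affine.Point.map (W' := W) ι P) = ι (yc P) := by
  rcases P with _ | ⟨x, y, h⟩
  · exact (map_zero ι).symm
  · rfl

open Classical in
theorem sg_map (W : WeierstrassCurve.Affine K) (ι : Ω →ₐ[K] Ω') (e : Ω) (P : Pt W Ω) :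
    sg (ι e) (WeierstrassCurve.Affine.Point.map (W' := W) ι P) = ι (sg e P) := by
  have h1 : (WeierstrassCurve.Affine.Point.map (W' := W) ι P = 0 ∨
      xc (WeierstrassCurve.Affine.Point.map (W' := W) ι P) = ι e) ↔ (P = 0 ∨ xc P = e) := by
    have hinj : ι (xc P) = ι e ↔ xc P = e := ⟨fun h => ι.injective h, fun h => by rw [h]⟩
    rw [xc_map, hinj]
    refine or_congr ?_ Iff.rfl
    constructor
    · intro h
      apply WeierstrassCurve.Affine.Point.map_injective (W' := W) ι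
      rw [h, map_zero]
    · intro h
      rw [h, map_zero]
  unfold sg
  by_cases h : P = 0 ∨ xc P = e
  · rw [if_pos h, if_pos (h1.2 h), map_one]
  · rw [if_neg h, if_neg (fun h' => h (h1.1 h')), map_neg, map_one]

open Classical in
theorem gg_map (W : WeierstrassCurve.Affine K) (ι : Ω →ₐ[K] Ω') (e : Ω) (P : Pt W Ω) :
    gg (ι e) (WeierstrassCurve.Affine.Point.map (W' := W) ι P) = ι (gg e P) := by
  unfold gg
  rw [xc_map, yc_map, map_div₀, map_sub, map_pow, map_sub, map_add, map_mul, map_mul, map_pow, map_ofNat,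
    map_ofNat]
  have h : (WeierstrassCurve.Affine.baseChange W Ω').a₄ = ι (WeierstrassCurve.Affine.baseChange W Ω).a₄ :=
    (ι.commutes W.a₄).symm
  rw [h]

open Classical in
theorem xc_act (W : WeierstrassCurve.Affine K) (g : Ω ≃ₐ[K] Ω) (P : Pt W Ω) :
    xc (act W Ω g P) = g (xc P) := by
  exact xc_map W (g : Ω →ₐ[K] Ω) P

open Classical in
theorem yc_act (W : WeierstrassCurve.Affine K) (g : Ω ≃ₐ[K] Ω) (P : Pt W Ω) :
    yc (act W Ω g P) = g (yc P) := by
  exact yc_map W (g : Ω →ₐ[K] Ω) P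

open Classical in
theorem sg_act (W : WeierstrassCurve.Affine K) (g : Ω ≃ₐ[K] Ω) (e : Ω) (P : Pt W Ω) :
    sg (g e) (act W Ω g P) = sg e P := by
  have h : sg (g e) (act W Ω g P) = g (sg e P) := sg_map W (g : Ω →ₐ[K] Ω) e P
  rw [h]
  unfold sg
  split_ifs
  · rw [map_one]
  · rw [map_neg, map_one]

open Classical in
theorem gg_act (W : WeierstrassCurve.Affine K) (g : Ω ≃ₐ[K] Ω) (e : Ω) (P : Pt W Ω) :
    gg (g e) (act W Ω g P) = g (gg e P) := by
  exact gg_map W (g : Ω →ₐ[K] Ω) e P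

end H16G
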