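import Pool.Agent.Lib.H16G.Defs
import Pool.Agent.Lib.H16A.H2

/-!
# G5 (M, pure algebra): elements of `L[θ]` and functions on the roots

`ev i : L[θ] → Ω`, `θ ↦ e i`.  `L[θ] = L[X]/(f)`, every element is `AdjoinRoot.mk (E.poly L) p`, `p ∈ L[X]`, and
`ev i (mk p) = aeval (e i) p`.
* `ev_inj`: if `p(e i) = 0` for all `i` then `∏ (X - e i) = f` divides `p` over `Ω` (`X - e i` pairwise coprime), hence over `L`
  (`Polynomial.map_dvd_map`, `f` monic): `mk p = 0`.
* `ev_desc`: Lagrange interpolation (`Lagrange.interpolate`) gives `p ∈ Ω[X]` of degree `< 3` with `p(e i) = z i`.  For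
  `σ ∈ Gal(Ω/L)` the polynomial `σ p` has degree `< 3` and `(σ p)(e j) = σ (p (e i)) = σ (z i) = z j` if `σ (e i) = e j` (`σ` permutes the roots), so
  `σ p = p` (`Polynomial.eq_of_degree_sub_lt_of_eval_finset_eq` or `Lagrange.eq_interpolate`).  So the coefficients are fixed by
  `Gal(Ω/L)`; `Ω/L` is Galois (algebraically closed, algebraic, characteristic zero: `IsAlgClosure.isGalois`), hence they are in
  `L` (`IsGalois.mem_bot_iff_fixed` or `InfiniteGalois`, `IsGalois.tfae`...; see H16C for the same argument: grep `exists_base`, `fixed`).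
* `ev_norm`: for `a = mk p`: the norm is the determinant of the multiplication; base change to `Ω`: `Ω ⊗ L[θ] = Ω[X]/(f) = Ω³`.
  Or: `Algebra.norm L a = ∏` over the `L`-algebra homomorphisms for separable algebras; the team has this for `Cub`: grep
  `norm_eq_prod`, `evAt`, in Pool/Agent/Lib/H16A (files H1, H2, U*, S*), for instance a lemma that `algebraMap (norm L a) = ∏ i, evAt ...`.
* `ev_unit`: from `ev_norm` (a is a unit iff its norm is not zero) or from `ev_desc` applied to the inverses.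
-/

open Polynomial H16A H16C

namespace H16G

variable {E : Cub} {L Ω : Type*} [Field L] [Field Ω] [Algebra L Ω]

theorem g5_uniq {e : Fin 3 → Ω} (he : Function.Injective e) {α β γ : Ω}
    (h : ∀ i, α + β * e i + γ * e i ^ 2 = 0) : α = 0 ∧ β = 0 ∧ γ = 0 := by
  have h01 : e 0 - e 1 ≠ 0 := sub_ne_zero.2 (fun h => by simpa using he h)
  have h02 : e 0 - e 2 ≠ 0 := sub_ne_zero.2 (fun h => by simpa using he h)
  have h12 : e 1 - e 2 ≠ 0 := sub_ne_zero.2 (fun h => by simpa using he h)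
  have h0 := h 0
  have h1 := h 1
  have h2 := h 2
  have k1 : β + γ * (e 0 + e 1) = 0 := by
    have : (e 0 - e 1) * (β + γ * (e 0 + e 1)) = 0 := by linear_combination h0 - h1
    exact (mul_eq_zero.1 this).resolve_left h01
  have k2 : β + γ * (e 0 + e 2) = 0 := by
    have : (e 0 - e 2) * (β + γ * (e 0 + e 2)) = 0 := by linear_combination h0 - h2
    exact (mul_eq_zero.1 this).resolve_left h02
  have hγ : γ = 0 := by
    have : (e 1 - e 2) * γ = 0 := by linear_combination k1 - k2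
    exact (mul_eq_zero.1 this).resolve_left h12
  subst hγ
  have hβ : β = 0 := by linear_combination k1
  subst hβ
  exact ⟨by linear_combination h0, rfl, rfl⟩

theorem g5_interp {e : Fin 3 → Ω} (he : Function.Injective e) (z : Fin 3 → Ω) :
    ∃ α β γ : Ω, ∀ i, α + β * e i + γ * e i ^ 2 = z i := by
  have h01 : e 0 - e 1 ≠ 0 := sub_ne_zero.2 (fun h => by simpa using he h)
  have h02 : e 0 - e 2 ≠ 0 := sub_ne_zero.2 (fun h => by simpa using he h)
  have h12 : e 1 - e 2 ≠ 0 := sub_ne_zero.2 (fun h => by simpa using he h)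
  set A := z 0 / ((e 0 - e 1) * (e 0 - e 2)) with hA
  set B := z 1 / ((e 0 - e 1) * (e 1 - e 2)) with hB
  set D := z 2 / ((e 0 - e 2) * (e 1 - e 2)) with hD
  have h0 : z 0 = A * ((e 0 - e 1) * (e 0 - e 2)) := by rw [hA]; field_simp
  have h1 : z 1 = B * ((e 0 - e 1) * (e 1 - e 2)) := by rw [hB]; field_simp
  have h2 : z 2 = D * ((e 0 - e 2) * (e 1 - e 2)) := by rw [hD]; field_simp
  refine ⟨A * (e 1 * e 2) - B * (e 0 * e 2) + D * (e 0 * e 1),
    -(A * (e 1 + e 2)) + B * (e 0 + e 2) - D * (e 0 + e 1), A - B + D, ?_⟩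
  intro i
  fin_cases i
  · show A * (e 1 * e 2) - B * (e 0 * e 2) + D * (e 0 * e 1) +
      (-(A * (e 1 + e 2)) + B * (e 0 + e 2) - D * (e 0 + e 1)) * e 0 + (A - B + D) * e 0 ^ 2 = z 0
    rw [h0]; ring
  · show A * (e 1 * e 2) - B * (e 0 * e 2) + D * (e 0 * e 1) +
      (-(A * (e 1 + e 2)) + B * (e 0 + e 2) - D * (e 0 + e 1)) * e 1 + (A - B + D) * e 1 ^ 2 = z 1
    rw [h1]; ring
  · show A * (e 1 * e 2) - B * (e 0 * e 2) + D * (e 0 * e 1) +
      (-(A * (e 1 + e 2)) + B * (e 0 + e 2) - D * (e 0 + e 1)) * e 2 + (A - B + D) * e 2 ^ 2 = z 2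
    rw [h2]; ring

theorem g5_root (R : Rts E Ω) (i : Fin 3) : (E.poly L).eval₂ (algebraMap L Ω) (R.e i) = 0 := by
  rw [← eval_map, E.poly_map, E.eval_poly, R.root]

theorem ev_th (R : Rts E Ω) (i : Fin 3) : R.ev L i (E.th L) = R.e i :=
  AdjoinRoot.lift_root (g5_root R i)

theorem ev_alg (R : Rts E Ω) (i : Fin 3) (x : L) :
    R.ev L i (algebraMap L (E.Alg L) x) = algebraMap L Ω x :=
  AdjoinRoot.lift_of (g5_root R i)

theorem g5_coords (R : Rts E Ω) (i : Fin 3) (α β γ : L) :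
    R.ev L i (algebraMap L (E.Alg L) α + algebraMap L (E.Alg L) β * E.th L +
      algebraMap L (E.Alg L) γ * E.th L ^ 2) =
      algebraMap L Ω α + algebraMap L Ω β * R.e i + algebraMap L Ω γ * R.e i ^ 2 := by
  simp only [map_add, map_mul, map_pow, ev_th, ev_alg]

theorem ev_inj (R : Rts E Ω) {a b : E.Alg L} (h : ∀ i, R.ev L i a = R.ev L i b) : a = b := by
  obtain ⟨α, β, γ, rfl⟩ := E.exists_coords a
  obtain ⟨α', β', γ', rfl⟩ := E.exists_coords b
  have h1 := g5_uniq (α := algebraMap L Ω (α - α')) (β := algebraMap L Ω (β - β'))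
    (γ := algebraMap L Ω (γ - γ')) R.inj (by
      intro i
      have h2 := h i
      rw [g5_coords, g5_coords] at h2
      simp only [map_sub]
      linear_combination h2)
  have hinj : Function.Injective (algebraMap L Ω) := (algebraMap L Ω).injective
  have ha : α = α' := sub_eq_zero.1 (hinj (by rw [h1.1, map_zero]))
  have hb : β = β' := sub_eq_zero.1 (hinj (by rw [h1.2.1, map_zero]))
  have hc : γ = γ' := sub_eq_zero.1 (hinj (by rw [h1.2.2, map_zero]))
  rw [ha, hb, hc]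

theorem ev_norm (R : Rts E Ω) (a : E.Alg L) :
    algebraMap L Ω (Algebra.norm L a) = ∏ i, R.ev L i a := by
  obtain ⟨α, β, γ, rfl⟩ := E.exists_coords a
  have hp3 := R.poly_eq
  rw [Fin.prod_univ_three, Cub.h1_coeffs, Cubic.prod_X_sub_C_eq, Cubic.toPoly_injective] at hp3
  simp only [Cubic.mk.injEq, true_and] at hp3
  obtain ⟨ha, hb, hc⟩ := hp3
  rw [E.norm_eq, Fin.prod_univ_three, g5_coords, g5_coords, g5_coords]
  simp only [map_add, map_sub, map_mul, map_pow, map_intCast, map_ofNat]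
  rw [ha, hb, hc]
  ring

/-- an automorphism permutes the roots -/
theorem ev_perm (R : Rts E Ω) (σ : Ω ≃ₐ[L] Ω) (i : Fin 3) :
    ∃ j, σ (R.e i) = R.e j ∧ ∀ a : E.Alg L, σ (R.ev L i a) = R.ev L j a := by
  have h1 : E.val (σ (R.e i)) = 0 := by
    have h2 : σ (E.val (R.e i)) = E.val (σ (R.e i)) := by
      simp only [Cub.val, map_add, map_mul, map_pow, map_intCast]
    rw [← h2, R.root, map_zero]
  rw [← E.eval_poly, R.poly_eq, eval_prod, Finset.prod_eq_zero_iff] at h1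
  obtain ⟨j, -, hj⟩ := h1
  rw [eval_sub, eval_X, eval_C, sub_eq_zero] at hj
  refine ⟨j, hj, ?_⟩
  intro a
  obtain ⟨α, β, γ, rfl⟩ := E.exists_coords a
  rw [g5_coords, g5_coords]
  simp only [map_add, map_mul, map_pow, hj, AlgEquiv.commutes]

theorem ev_perm' (R : Rts E Ω) (σ : Ω ≃ₐ[L] Ω) (j : Fin 3) : ∃ i, σ (R.e i) = R.e j := by
  obtain ⟨i, hi, -⟩ := ev_perm R σ.symm j
  exact ⟨i, by rw [← hi, AlgEquiv.apply_symm_apply]⟩

variable [IsAlgClosed Ω] [Algebra.IsAlgebraic L Ω] [CharZero L]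

theorem g5_fixed (x : Ω) (h : ∀ σ : Ω ≃ₐ[L] Ω, σ x = x) : ∃ y : L, algebraMap L Ω y = x := by
  have : IsAlgClosure L Ω := ⟨inferInstance, inferInstance⟩
  have : IsGalois L Ω := IsAlgClosure.isGalois L Ω
  have h1 : x ∈ (⊥ : IntermediateField L Ω) := (InfiniteGalois.mem_bot_iff_fixed x).2 h
  exact IntermediateField.mem_bot.1 h1

theorem ev_desc (R : Rts E Ω) (z : Fin 3 → Ω)
    (hz : ∀ (σ : Ω ≃ₐ[L] Ω) (i j : Fin 3), σ (R.e i) = R.e j → σ (z i) = z j) :
    ∃ a : E.Alg L, ∀ i, R.ev L i a = z i := by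
  obtain ⟨α, β, γ, h⟩ := g5_interp R.inj z
  have hfix : ∀ σ : Ω ≃ₐ[L] Ω, σ α = α ∧ σ β = β ∧ σ γ = γ := by
    intro σ
    have h1 := g5_uniq (α := σ α - α) (β := σ β - β) (γ := σ γ - γ) R.inj (by
      intro j
      obtain ⟨i, hi⟩ := ev_perm' R σ j
      have h2 := congrArg σ (h i)
      simp only [map_add, map_mul, map_pow, hi] at h2
      rw [hz σ i j hi] at h2
      linear_combination h2 - h j)
    exact ⟨sub_eq_zero.1 h1.1, sub_eq_zero.1 h1.2.1, sub_eq_zero.1 h1.2.2⟩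
  obtain ⟨a, ha⟩ := g5_fixed α (fun σ => (hfix σ).1)
  obtain ⟨b, hb⟩ := g5_fixed β (fun σ => (hfix σ).2.1)
  obtain ⟨c, hc⟩ := g5_fixed γ (fun σ => (hfix σ).2.2)
  refine ⟨algebraMap L (E.Alg L) a + algebraMap L (E.Alg L) b * E.th L +
      algebraMap L (E.Alg L) c * E.th L ^ 2, fun i => ?_⟩
  rw [g5_coords, ha, hb, hc, h i]

theorem ev_unit (R : Rts E Ω) (a : E.Alg L) (h : ∀ i, R.ev L i a ≠ 0) : IsUnit a := by
  obtain ⟨b, hb⟩ := ev_desc (L := L) R (fun i => (R.ev L i a)⁻¹) (by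
    intro σ i j hij
    obtain ⟨k, hk, hka⟩ := ev_perm R σ i
    have : k = j := R.inj (hk.symm.trans hij)
    subst this
    rw [map_inv₀, hka a])
  refine IsUnit.of_mul_eq_one b (ev_inj R fun i => ?_)
  rw [map_mul, hb i, map_one, mul_inv_cancel₀ (h i)]

end H16G
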