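import Pool.Agent.Lib.H16G.G1
import Pool.Agent.Lib.H16G.G2
import Pool.Agent.Lib.H16G.G3
import Pool.Agent.Lib.H16G.G4
import Pool.Agent.Lib.H16G.G5
import Pool.Agent.Lib.H16C.T1

/-!
# G7 (M): a point gives a coboundary

`W = WK E K`, `V = baseChange W Ω`, `RtV V R.e` (`rtv`), `σ Q` = `act W Ω (σ.restrictScalars K) Q`.
* `P = .zero`: `u = v²` in `L[θ]`.  `(ev i v)² = (w i)²`, so `w i = s i * ev i v`, `s i = ± 1`.  `∏ w i = ± ∏ ev i v`: if the sign is `-1` replace `v` by `-v`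
  (the product of the three signs changes its sign).  So `∏ s i = 1` (`∏ ev i v ≠ 0`), `s i = sg (e i) Q` with `2 Q = 0` (`sg_surj`).  For
  `σ (e i) = e j`: `σ (w i) = s i * σ (ev i v) = s i * ev j v = s i s j w j` (`ev_perm`), so `sg (e j) (c σ) = s i s j = sg (e j) (σ Q) * sg (e j) Q = sg (e j) (σ Q - Q)`
  (`sg_act`, `sg_add`, `-Q = Q`); every `j` is hit (`ev_perm'`); `sg_inj`: `c σ = σ Q - Q`.
* `P = .some x y h`: `u z² = x - θ` in `L[θ]`.  `X, Y ∈ Ω` the images of `x, y`; `t i = w i * ev i z`, `(t i)² = X - e i`.  The point `P' = (X, Y)` of `V` is `2 Q` for some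
  `Q` (`Ω` algebraically closed: divisibility, grep `divisible`, `exists_nsmul`, `exists_half` in Pool/Agent/Lib/H16C, H16F; or
  directly), `Q ≠ 0`, `yc Q ≠ 0` because `2 Q = P' ≠ 0`.  `(gg (e i) Q)² = X - e i = (t i)²`.  `∏ gg = Y` (`gg_prod`), `(∏ t i)² = Y²`.
  Claim: there are `s i = ± 1` with `∏ s i = 1` and a sign `ε` with `gg (e i) Q = s i * ε * t i` for all `i`: if some `t k = 0` the sign `s k` is
  free; otherwise `∏ gg = ± ∏ t`, and `ε` (the same for all `i`; `ε³ = ε`) makes the product of the `s i` equal to `1`.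
  `T` with `2 T = 0`, `sg (e i) T = s i` (`sg_surj`), `Q' = Q + T`: `gg (e i) Q' = ε t i` (`gg_add`), `2 Q' = P'`.  For `σ (e i) = e j`:
  `gg (e j) (σ Q') = σ (gg (e i) Q')` (`gg_act`) `= ε σ (w i) σ (ev i z) = ε sg (e j) (c σ) w j ev j z = sg (e j) (c σ) gg (e j) Q' = gg (e j) (Q' + c σ)` (`gg_add`).
  `2 (σ Q') = σ P' = P' = 2 (Q' + c σ)` so `σ Q' = Q' + c σ + T'`, `2 T' = 0`, and (`gg_add`) `sg (e j) T' = 1` for all `j` with `gg (e j) Q' ≠ 0`, that is `t j ≠ 0`: at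
  least two of the `j` (`X - e j = 0` for at most one `j`), so for all `j` (`sg_prod`): `T' = 0` (`sg_inj`, `sg_zero`).
-/

open Polynomial H16A H16C

namespace H16G

variable {E : Cub} {K L Ω : Type*} [Field K] [Field L] [Field Ω] [Algebra K L] [Algebra K Ω]
  [Algebra L Ω] [IsScalarTower K L Ω] [IsAlgClosed Ω] [Algebra.IsAlgebraic L Ω] [CharZero L]
  [CharZero K]

/-- signs -/
theorem g7_signs {F : Type*} [Field F] {g t : Fin 3 → F} (h : ∀ i, g i ^ 2 = t i ^ 2) :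
    ∃ (s : Fin 3 → F) (ε : F), (ε = 1 ∨ ε = -1) ∧ (∀ i, s i = 1 ∨ s i = -1) ∧ ∏ i, s i = 1 ∧
      ∀ i, s i * g i = ε * t i := by
  have h1 : ∀ i, ∃ s : F, (s = 1 ∨ s = -1) ∧ s * g i = t i := by
    intro i
    rcases sq_eq_sq_iff_eq_or_eq_neg.1 (h i) with h2 | h2
    · exact ⟨1, Or.inl rfl, by rw [h2, one_mul]⟩
    · exact ⟨-1, Or.inr rfl, by rw [h2]; ring⟩
  choose s hs1 hs2 using h1
  have h3 : ∏ i, s i = 1 ∨ ∏ i, s i = -1 := by
    rw [Fin.prod_univ_three]
    rcases hs1 0 with h4 | h4 <;> rcases hs1 1 with h5 | h5 <;> rcases hs1 2 with h6 | h6 <;>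
      rw [h4, h5, h6] <;> simp
  rcases h3 with h3 | h3
  · exact ⟨s, 1, Or.inl rfl, hs1, h3, fun i => by rw [hs2, one_mul]⟩
  · refine ⟨fun i => -s i, -1, Or.inr rfl, fun i => ?_, ?_, fun i => ?_⟩
    · show -s i = 1 ∨ -s i = -1
      rcases hs1 i with h4 | h4
      · right
        rw [h4]
      · left
        rw [h4, neg_neg]
    · rw [Fin.prod_univ_three] at h3 ⊢
      linear_combination -h3
    · show -s i * g i = -1 * t i
      rw [← hs2]
      ring

omit [IsAlgClosed Ω] [Algebra.IsAlgebraic L Ω] [CharZero L] [CharZero K] [Algebra K L]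
  [Algebra K Ω] [IsScalarTower K L Ω] [Field K] in
theorem g7_ev (R : Rts E Ω) (σ : Ω ≃ₐ[L] Ω) {i j : Fin 3} (h : σ (R.e i) = R.e j) (a : E.Alg L) :
    σ (R.ev L i a) = R.ev L j a := by
  obtain ⟨j', h5, h6⟩ := ev_perm (L := L) R σ i
  have h7 : j' = j := R.inj (h5.symm.trans h)
  rw [h6, h7]

open Classical in
theorem cob_of_sq (hE : E.a = 0) (hd : E.disc ≠ 0) (R : Rts E Ω) {u : (E.Alg L)ˣ}
    {w : Fin 3 → Ω} (hw : ∀ i, w i ^ 2 = R.ev L i u) {c : (Ω ≃ₐ[L] Ω) → Pt (WK E K) Ω}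
    (hc : As R w c) (hu : IsSquare (u : E.Alg L)) :
    ∃ Q : Pt (WK E K) Ω, ∀ σ : Ω ≃ₐ[L] Ω, c σ = act (WK E K) Ω (σ.restrictScalars K) Q - Q := by
  have hcz : CharZero Ω := charZero_of_injective_algebraMap (algebraMap L Ω).injective
  have h20 : (2 : Ω) ≠ 0 := two_ne_zero
  have hsh : (WK E K).IsShortNF := shortK hE
  have hrt := rtv (K := K) hE R
  obtain ⟨hw0, hc2, hcs⟩ := hc
  obtain ⟨v, hv⟩ := hu
  have h1 : ∀ i, w i ^ 2 = (R.ev L i v) ^ 2 := by
    intro i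
    rw [hw, hv, map_mul, pow_two]
  obtain ⟨s, ε, hε, s1, s2, s3⟩ := g7_signs h1
  have hε2 : ε * ε = 1 := by rcases hε with h | h <;> rw [h] <;> ring
  have hσε : ∀ σ : Ω ≃ₐ[L] Ω, σ ε = ε := by
    intro σ
    rcases hε with h | h <;> rw [h] <;> simp
  have hσs : ∀ (σ : Ω ≃ₐ[L] Ω) i, σ (s i) = s i := by
    intro σ i
    rcases s1 i with h | h <;> rw [h] <;> simp
  have hss : ∀ i, s i * s i = 1 := by
    intro i
    rcases s1 i with h | h <;> rw [h] <;> ring
  obtain ⟨Q, hQ, hQs⟩ := sg_surj h20 hrt s s1 s2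
  refine ⟨Q, fun σ => ?_⟩
  have h2σ : 2 • act (WK E K) Ω (σ.restrictScalars K) Q = 0 := by
    rw [← map_nsmul, hQ, map_zero]
  have hneg : -Q = Q := by
    rw [two_nsmul] at hQ
    exact neg_eq_of_add_eq_zero_left hQ
  rw [sub_eq_add_neg, hneg]
  refine sg_inj h20 hrt (hc2 σ) (by rw [smul_add, h2σ, hQ, add_zero]) fun j => ?_
  obtain ⟨i, hi⟩ := ev_perm' (L := L) R σ j
  have hev := g7_ev R σ hi v
  have h7 : sg (R.e j) (act (WK E K) Ω (σ.restrictScalars K) Q) = s i := by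
    have h8 : R.e j = (σ.restrictScalars K) (R.e i) := hi.symm
    rw [h8, sg_act, hQs]
  rw [sg_add h20 hrt h2σ hQ, h7, hQs]
  have h9 := hcs σ i j hi
  have h10 : s i * σ (w i) = ε * R.ev L j v := by
    have h11 := congrArg σ (s3 i)
    rw [map_mul, map_mul, hσs, hσε, hev] at h11
    exact h11
  have h12 := s3 j
  -- `s i * (sg * w j) = ε ev = s j * w j`
  rw [h9] at h10
  have h13 : (s i * sg (R.e j) (c σ) - s j) * w j = 0 := by linear_combination h10 - h12
  rcases mul_eq_zero.1 h13 with h14 | h14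
  · have h15 : s i * sg (R.e j) (c σ) = s j := sub_eq_zero.1 h14
    calc sg (R.e j) (c σ) = s i * s i * sg (R.e j) (c σ) := by rw [hss, one_mul]
      _ = s i * (s i * sg (R.e j) (c σ)) := by ring
      _ = s i * s j := by rw [h15]
  · exact absurd h14 (hw0 j)

open Classical in
theorem cob_of_some (hE : E.a = 0) (hd : E.disc ≠ 0) (R : Rts E Ω) {u : (E.Alg L)ˣ}
    {w : Fin 3 → Ω} (hw : ∀ i, w i ^ 2 = R.ev L i u) {c : (Ω ≃ₐ[L] Ω) → Pt (WK E K) Ω}
    (hc : As R w c) {x y : L} (hxy : y ^ 2 = E.val x) {z : E.Alg L}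
    (hz : (u : E.Alg L) * z ^ 2 = algebraMap L (E.Alg L) x - E.th L) :
    ∃ Q : Pt (WK E K) Ω, ∀ σ : Ω ≃ₐ[L] Ω, c σ = act (WK E K) Ω (σ.restrictScalars K) Q - Q := by
  have hcz : CharZero Ω := charZero_of_injective_algebraMap (algebraMap L Ω).injective
  have h20 : (2 : Ω) ≠ 0 := two_ne_zero
  have hsh : (WK E K).IsShortNF := shortK hE
  have hell : (WK E K).IsElliptic := ellK hE hd
  have hrt := rtv (K := K) hE R
  obtain ⟨hw0, hc2, hcs⟩ := hc
  have ht2 : ∀ i, (w i * R.ev L i z) ^ 2 = algebraMap L Ω x - R.e i := by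
    intro i
    rw [mul_pow, hw, ← map_pow, ← map_mul, hz, map_sub, ev_alg, ev_th]
  -- the point `(X, Y)`
  have hval : (algebraMap L Ω y) ^ 2 = E.val (algebraMap L Ω x) := by
    rw [← map_pow, hxy]
    simp only [Cub.val, map_add, map_mul, map_pow, map_intCast]
  have hprod : E.val (algebraMap L Ω x) = ∏ i, (algebraMap L Ω x - R.e i) := by
    rw [← E.eval_poly, R.poly_eq, eval_prod]
    simp only [eval_sub, eval_X, eval_C]
  have hpt : (algebraMap L Ω y) ^ 2 = (algebraMap L Ω x) ^ 3 +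
      (WeierstrassCurve.Affine.baseChange (WK E K) Ω).a₄ * (algebraMap L Ω x) +
      (WeierstrassCurve.Affine.baseChange (WK E K) Ω).a₆ := by
    rw [hval, hprod, Fin.prod_univ_three, ← hrt.a4]
    have h3 : (WeierstrassCurve.Affine.baseChange (WK E K) Ω).a₆ = -(R.e 0 * R.e 1 * R.e 2) := by
      rw [hrt.a6, neg_neg]
    have h4 : R.e 2 = -R.e 0 - R.e 1 := by linear_combination hrt.sum
    rw [h3, h4]
    ring
  obtain ⟨P, hP0, hPx, hPy⟩ :=
    exists_pt (W := WeierstrassCurve.Affine.baseChange (WK E K) Ω) _ _ hpt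
  obtain ⟨Q, hQ⟩ := divisible (W := WeierstrassCurve.Affine.baseChange (WK E K) Ω) 2 two_pos P
  have hQ0 : Q ≠ 0 := by
    rintro rfl
    rw [smul_zero] at hQ
    exact hP0 hQ.symm
  have hyQ : yc Q ≠ 0 := by
    intro h0
    apply hP0
    rw [← hQ]
    exact (two_smul_eq_zero_iff h20 hQ0).2 h0
  have hgg : ∀ i, gg (R.e i) Q ^ 2 = (w i * R.ev L i z) ^ 2 := by
    intro i
    rw [gg_sq h20 (hrt.root i) hQ0 hyQ, hQ, hPx, ht2]
  obtain ⟨s, ε, hε, s1, s2, s3⟩ := g7_signs hgg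
  have hσε : ∀ σ : Ω ≃ₐ[L] Ω, σ ε = ε := by
    intro σ
    rcases hε with h | h <;> rw [h] <;> simp
  have hε0 : ε ≠ 0 := by
    rcases hε with h | h <;> rw [h] <;> simp
  obtain ⟨T, hT, hTs⟩ := sg_surj h20 hrt s s1 s2
  obtain ⟨hR0, hyR, -⟩ := gg_add h20 hrt hT hQ0 hyQ 0
  have hgR : ∀ i, gg (R.e i) (Q + T) = ε * (w i * R.ev L i z) := by
    intro i
    obtain ⟨-, -, h3⟩ := gg_add h20 hrt hT hQ0 hyQ i
    rw [h3, hTs, s3]
  have h2R : 2 • (Q + T) = P := by
    rw [smul_add, hT, add_zero, hQ]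
  generalize Q + T = Q' at hR0 hyR hgR h2R
  refine ⟨Q', fun σ => ?_⟩
  set A := act (WK E K) Ω (σ.restrictScalars K) Q' with hA
  have hσP : act (WK E K) Ω (σ.restrictScalars K) P = P := by
    have h3 : act (WK E K) Ω (σ.restrictScalars K) P ≠ 0 := by
      intro h0
      apply hP0
      have hinj : Function.Injective (act (WK E K) Ω (σ.restrictScalars K)) :=
        WeierstrassCurve.Affine.Point.map_injective _
      exact (map_eq_zero_iff (act (WK E K) Ω (σ.restrictScalars K)) hinj).1 h0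
    apply pt_ext h3 hP0
    · rw [xc_act, hPx]
      exact σ.commutes x
    · rw [yc_act, hPy]
      exact σ.commutes y
  have h2A : 2 • A = P := by
    rw [hA, ← map_nsmul, h2R, hσP]
  have h2T : 2 • (A - (Q' + c σ)) = 0 := by
    rw [smul_sub, smul_add, h2A, h2R, hc2, add_zero, sub_self]
  obtain ⟨hc0, hcy, -⟩ := gg_add h20 hrt (hc2 σ) hR0 hyR 0
  have key : ∀ j, w j * R.ev L j z ≠ 0 → sg (R.e j) (A - (Q' + c σ)) = 1 := by
    intro j hj
    obtain ⟨i, hi⟩ := ev_perm' (L := L) R σ j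
    have h3 : gg (R.e j) A = σ (gg (R.e i) Q') := by
      have h8 : R.e j = (σ.restrictScalars K) (R.e i) := hi.symm
      rw [hA, h8, gg_act]
      rfl
    obtain ⟨-, -, h4⟩ := gg_add h20 hrt (hc2 σ) hR0 hyR j
    obtain ⟨-, -, h5⟩ := gg_add h20 hrt h2T hc0 hcy j
    rw [add_sub_cancel, h3, hgR, map_mul, map_mul, hσε, g7_ev R σ hi z, hcs σ i j hi, h4, hgR] at h5
    have h6 : (sg (R.e j) (A - (Q' + c σ)) - 1) * (sg (R.e j) (c σ) * ε * (w j * R.ev L j z)) = 0 := by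
      linear_combination -h5
    rcases mul_eq_zero.1 h6 with h7 | h7
    · exact sub_eq_zero.1 h7
    · exfalso
      rcases mul_eq_zero.1 h7 with h8 | h8
      · rcases mul_eq_zero.1 h8 with h9 | h9
        · have h10 := sg_sq (R.e j) (c σ)
          rw [h9, mul_zero] at h10
          exact zero_ne_one h10
        · exact hε0 h9
      · exact hj h8
  have key2 : ∀ j, sg (R.e j) (A - (Q' + c σ)) = 1 := by
    intro j
    by_cases hj : w j * R.ev L j z = 0
    · have h3 : algebraMap L Ω x = R.e j := by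
        have h4 := ht2 j
        rw [hj, zero_pow two_ne_zero] at h4
        exact (sub_eq_zero.1 h4.symm)
      have h5 : ∀ i, i ≠ j → sg (R.e i) (A - (Q' + c σ)) = 1 := by
        intro i hij
        apply key
        intro h0
        have h4 := ht2 i
        rw [h0, zero_pow two_ne_zero, h3] at h4
        exact hij (R.inj (sub_eq_zero.1 h4.symm).symm)
      have h6 := sg_prod h20 hrt h2T
      rw [Finset.prod_eq_single j (fun i _ hij => h5 i hij) (fun h => absurd (Finset.mem_univ j) h)] at h6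
      exact h6
    · exact key j hj
  have h0 : A - (Q' + c σ) = 0 := by
    refine sg_inj h20 hrt h2T (smul_zero 2) fun j => ?_
    rw [key2, sg_zero]
  rw [sub_eq_zero] at h0
  rw [h0]
  abel

open Classical in
theorem cob_of_rel (hE : E.a = 0) (hd : E.disc ≠ 0) (R : Rts E Ω) {u : (E.Alg L)ˣ}
    {w : Fin 3 → Ω} (hw : ∀ i, w i ^ 2 = R.ev L i u) {c : (Ω ≃ₐ[L] Ω) → Pt (WK E K) Ω}
    (hc : As R w c) {P : E.Pt L} (hP : E.Rel L u P) :
    ∃ Q : Pt (WK E K) Ω, ∀ σ : Ω ≃ₐ[L] Ω, c σ = act (WK E K) Ω (σ.restrictScalars K) Q - Q := by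
  rcases P with _ | ⟨x, y, h⟩
  · exact cob_of_sq hE hd R hw hc hP
  · obtain ⟨-, z, hz⟩ := hP
    refine cob_of_some hE hd R hw hc (x := x) (y := y) ?_ hz
    have h1 := h.1
    rw [WeierstrassCurve.Affine.equation_iff] at h1
    have e1 : (WeierstrassCurve.Affine.baseChange E.W L).a₁ = 0 := by
      show algebraMap ℤ L 0 = 0
      simp
    have e3 : (WeierstrassCurve.Affine.baseChange E.W L).a₃ = 0 := by
      show algebraMap ℤ L 0 = 0
      simp
    have e2 : (WeierstrassCurve.Affine.baseChange E.W L).a₂ = (E.a : L) := by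
      show algebraMap ℤ L E.a = _
      simp
    have e4 : (WeierstrassCurve.Affine.baseChange E.W L).a₄ = (E.b : L) := by
      show algebraMap ℤ L E.b = _
      simp
    have e6 : (WeierstrassCurve.Affine.baseChange E.W L).a₆ = (E.c : L) := by
      show algebraMap ℤ L E.c = _
      simp
    rw [e1, e3, e2, e4, e6] at h1
    unfold Cub.val
    linear_combination h1

end H16G
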