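import Pool.Agent.Lib.H16G.G6
import Pool.Agent.Lib.H16G.G7
import Pool.Agent.Lib.H16A.H3
import Pool.Agent.Lib.H16C.TR2

/-!
# G10 (M): the local condition at a completion `L` of `K`

Let `ι : Ω → L^alg` be a `K`-embedding (there is one: `IsAlgClosed.lift`), `R' = R.map ι` (G4), `w' i = ι (w i)`, `u' = E.uMap (algebraMap K L) u`.
`R'.ev L i u' = ι (R.ev K i u)` (write `u = mk p`; `Cub.algMap`, `Cub.evAt` are `AdjoinRoot.map`, `AdjoinRoot.lift`), so `(w' i)² = R'.ev L i u'`.  The norm of `u'` is a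
square in `L` (`norm (uMap u) = algebraMap (norm u)`: from `ev_norm` over `Ω` and over `L^alg` and the injectivity of `L → L^alg`, or grep
`norm_algMap` in H16A).  For `σ ∈ Gal(L^alg/L)` let `g_σ` be the restriction (`exists_restrict` in H16C/TR2), `c' σ = ι (c g_σ)` (`Point.map ι`).
`As R' w' c'` (`sg_map`, `σ (ι z) = ι (g_σ z)`).
`→`: `ι`, the point `Q` of `LocTriv`; `rel_of_cob` (G6), `mem_imSub_iff` (H16A/H3).
`←`: for every `ι`, `mem_imSub_iff` and `cob_of_rel` (G7); if `ι (g x) = σ (ι x)` for all `x` then `g = g_σ`.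
The curve over `K` in `As`, `LocTriv` is `WK E K` for both fields `Ω`, `L^alg`.
-/

open Polynomial H16A H16C

namespace H16G

variable {E : Cub} {K Ω : Type*} [Field K] [Field Ω] [Algebra K Ω] [IsAlgClosed Ω]
  [Algebra.IsAlgebraic K Ω] [CharZero K]

omit [IsAlgClosed Ω] [Algebra.IsAlgebraic K Ω] [CharZero K] in
theorem g10_ev (R : Rts E Ω) {L Ω' : Type*} [Field L] [Algebra K L] [Field Ω'] [Algebra K Ω']
    [Algebra L Ω'] [IsScalarTower K L Ω'] (ι : Ω →ₐ[K] Ω') (i : Fin 3) (a : E.Alg K) :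
    (R.map ι).ev L i (E.algMap (algebraMap K L) a) = ι (R.ev K i a) := by
  obtain ⟨α, β, γ, rfl⟩ := E.exists_coords a
  have h1 : E.algMap (algebraMap K L) (E.th K) = E.th L := AdjoinRoot.map_root _ _ _ _
  have h2 : ∀ x : K, E.algMap (algebraMap K L) (algebraMap K (E.Alg K) x) =
      algebraMap L (E.Alg L) (algebraMap K L x) := fun x => AdjoinRoot.map_of _ _ _ _ x
  have h3 : (R.map ι).e i = ι (R.e i) := rfl
  have h4 : ∀ x : K, algebraMap L Ω' (algebraMap K L x) = ι (algebraMap K Ω x) := fun x => by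
    rw [ι.commutes, ← IsScalarTower.algebraMap_apply]
  rw [g5_coords]
  simp only [map_add, map_mul, map_pow, h1, h2]
  have h5 := g5_coords (L := L) (R.map ι) i (algebraMap K L α) (algebraMap K L β)
    (algebraMap K L γ)
  simp only [map_add, map_mul, map_pow] at h5
  rw [h5, h3, h4, h4, h4]

omit [IsAlgClosed Ω] [Algebra.IsAlgebraic K Ω] [CharZero K] in
theorem g10_norm (R : Rts E Ω) {L Ω' : Type*} [Field L] [Algebra K L] [Field Ω'] [Algebra K Ω']
    [Algebra L Ω'] [IsScalarTower K L Ω'] (ι : Ω →ₐ[K] Ω') (a : E.Alg K) :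
    Algebra.norm L (E.algMap (algebraMap K L) a) = algebraMap K L (Algebra.norm K a) := by
  apply (algebraMap L Ω').injective
  rw [ev_norm (R.map ι), ← IsScalarTower.algebraMap_apply, ← ι.commutes, ev_norm R, map_prod]
  exact Finset.prod_congr rfl fun i _ => g10_ev R ι i a

omit [CharZero K] [IsAlgClosed Ω] [Algebra.IsAlgebraic K Ω] in
open Classical in
theorem g10_as (R : Rts E Ω) {w : Fin 3 → Ω} {c : (Ω ≃ₐ[K] Ω) → Pt (WK E K) Ω} (hc : As R w c)
    (L : Type*) [Field L] [Algebra K L] (ι : Ω →ₐ[K] AlgebraicClosure L)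
    (gr : (AlgebraicClosure L ≃ₐ[L] AlgebraicClosure L) → (Ω ≃ₐ[K] Ω))
    (hgr : ∀ σ x, ι (gr σ x) = σ (ι x)) :
    As (K := K) (L := L) (R.map ι) (fun i => ι (w i))
      (fun σ => WeierstrassCurve.Affine.Point.map (W' := WK E K) ι (c (gr σ))) := by
  obtain ⟨h1, h2, h3⟩ := hc
  have hinj : ∀ x y : Ω, ι x = ι y → x = y := fun x y h => ι.injective h
  refine ⟨fun i h => h1 i (hinj _ _ (h.trans (map_zero ι).symm)), fun σ => ?_,
    fun σ i j hij => ?_⟩
  · rw [← map_nsmul, h2, map_zero]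
  · have h5 : gr σ (R.e i) = R.e j := hinj _ _ (by rw [hgr]; exact hij)
    have h4 := h3 (gr σ) i j h5
    have h6 : (R.map ι).e j = ι (R.e j) := rfl
    show σ (ι (w i)) = sg ((R.map ι).e j) _ * ι (w j)
    rw [← hgr, h4, map_mul, h6, sg_map]

open Classical in
theorem loc_iff (hE : E.a = 0) (hd : E.disc ≠ 0) (R : Rts E Ω) {u : (E.Alg K)ˣ}
    (hu : IsSquare (Algebra.norm K (u : E.Alg K))) {w : Fin 3 → Ω}
    (hw : ∀ i, w i ^ 2 = R.ev K i u) {c : (Ω ≃ₐ[K] Ω) → Pt (WK E K) Ω} (hc : As R w c)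
    (L : Type*) [Field L] [Algebra K L] [CharZero L] :
    LocTriv (WK E K) Ω L c ↔ E.uMap (algebraMap K L) u ∈ E.imSub L := by
  have h2 : (2 : L) ≠ 0 := two_ne_zero
  have hd' : ((E.disc : ℤ) : L) ≠ 0 := Int.cast_ne_zero.2 hd
  have hval : ((E.uMap (algebraMap K L) u : (E.Alg L)ˣ) : E.Alg L) =
      E.algMap (algebraMap K L) (u : E.Alg K) := rfl
  have hw' : ∀ (ι : Ω →ₐ[K] AlgebraicClosure L) (i : Fin 3),
      (fun i => ι (w i)) i ^ 2 = (R.map ι).ev L i (E.uMap (algebraMap K L) u : (E.Alg L)ˣ) := by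
    intro ι i
    rw [hval, g10_ev, ← hw i, map_pow]
  constructor
  · intro h
    let ι : Ω →ₐ[K] AlgebraicClosure L := IsAlgClosed.lift
    obtain ⟨Q, hQ⟩ := h ι
    choose gr hgr using fun σ => (exists_restrict ι σ).exists
    have hn : IsSquare (Algebra.norm L
        ((E.uMap (algebraMap K L) u : (E.Alg L)ˣ) : E.Alg L)) := by
      rw [hval, g10_norm R ι]
      exact hu.map (algebraMap K L)
    exact (E.mem_imSub_iff h2 hd' _).2 (rel_of_cob hE hd (R.map ι) hn (hw' ι)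
      (g10_as R hc L ι gr hgr) (Q := Q) (fun σ => hQ σ (gr σ) (hgr σ)))
  · intro h ι
    obtain ⟨P, hP⟩ := (E.mem_imSub_iff h2 hd' _).1 h
    choose gr hgr using fun σ => (exists_restrict ι σ).exists
    obtain ⟨Q, hQ⟩ := cob_of_rel hE hd (R.map ι) (hw' ι) (g10_as R hc L ι gr hgr) hP
    refine ⟨Q, fun σ g hg => ?_⟩
    have hinj : ∀ x y : Ω, ι x = ι y → x = y := fun x y h => ι.injective h
    have h6 : g = gr σ := AlgEquiv.ext fun x => hinj _ _ (by rw [hg, hgr])
    rw [h6]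
    exact hQ σ

end H16G
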