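import Pool.Agent.Lib.H16G.G10

/-!
# G11 (S/M): the global conditions, and the quotient of two cocycles

* `as_sub`: `c - c'` has the signs of `c` times those of `c'` (`sg_add`, `-T = T` if `2 T = 0`); `sg * sg = 1`.
* `sel_iff`: `selSub` is `normSq ⊓ (⨅ v, ..) ⊓ (⨅ v, ..)`; membership in the infimum (`Subgroup.mem_iInf`, `mem_comap`) and `loc_iff` at every
  finite and infinite place; `ZSha` is `IsCocycle ∧ EverywhereTriv`.
* `cob_iff`: `rel_of_cob`, `cob_of_rel` for `L = K` (`σ.restrictScalars K = σ`), `mem_imSub_iff`.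
* `exists_rts`: `Ω` is algebraically closed: `E.poly Ω` splits, and it has no double root because `disc ≠ 0` (H16A: `n1_split`, `h2_separable`).
-/

open Polynomial H16A H16C NumberField

namespace H16G

variable {E : Cub} {K Ω : Type*} [Field K] [Field Ω] [Algebra K Ω] [IsAlgClosed Ω]
  [Algebra.IsAlgebraic K Ω] [CharZero K]

omit [Algebra.IsAlgebraic K Ω] in
theorem exists_rts (K : Type*) [Field K] [CharZero K] [Algebra K Ω] (hd : E.disc ≠ 0) :
    Nonempty (Rts E Ω) := by
  classical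
  have hcz : CharZero Ω := charZero_of_injective_algebraMap (algebraMap K Ω).injective
  have hdF : ((E.disc : ℤ) : Ω) ≠ 0 := by exact_mod_cast hd
  have hsep := E.h2_separable hdF
  have hm := E.poly_monic Ω
  have hdeg : (E.poly Ω).natDegree = 3 := E.h2_natDegree
  have hs : (E.poly Ω).Splits := IsAlgClosed.splits _
  have hnd := nodup_roots hsep
  have hcard : (E.poly Ω).roots.toFinset.card = 3 := by
    rw [Multiset.toFinset_card_of_nodup hnd, ← hs.natDegree_eq_card_roots, hdeg]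
  set R := (E.poly Ω).roots.toFinset with hR
  let eq : R ≃ Fin 3 := R.equivFinOfCardEq hcard
  have hprod : E.poly Ω = ∏ i : Fin 3, (X - C ((eq.symm i : R) : Ω)) := by
    rw [eq.symm.prod_comp (fun r : R => X - C (r : Ω))]
    rw [Finset.prod_coe_sort R (fun r => X - C r)]
    have h1 := hs.eq_prod_roots_of_monic hm
    have h2 : R.val = (E.poly Ω).roots := by
      rw [hR, Multiset.toFinset_val, Multiset.dedup_eq_self.2 hnd]
    show E.poly Ω = (R.val.map (fun r => X - C r)).prod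
    rw [h2]
    exact h1
  exact ⟨⟨fun i => ((eq.symm i : R) : Ω), hprod, fun i j hij => eq.symm.injective (Subtype.ext hij)⟩⟩

open Classical in
theorem as_sub (hE : E.a = 0) (R : Rts E Ω) {w w' : Fin 3 → Ω}
    {c c' : (Ω ≃ₐ[K] Ω) → Pt (WK E K) Ω} (hc : As R w c) (hc' : As R w' c') :
    As R (fun i => w i / w' i) (c - c') := by
  have hcz : CharZero Ω := charZero_of_injective_algebraMap (algebraMap K Ω).injective
  have h2 : (2 : Ω) ≠ 0 := two_ne_zero
  have hsh : (WK E K).IsShortNF := shortK hE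
  have hrt := rtv (K := K) hE R
  obtain ⟨a1, a2, a3⟩ := hc
  obtain ⟨b1, b2, b3⟩ := hc'
  refine ⟨fun i => div_ne_zero (a1 i) (b1 i), fun σ => ?_, fun σ i j hij => ?_⟩
  · rw [Pi.sub_apply, smul_sub, a2, b2, sub_zero]
  · have hneg : -(c' σ) = c' σ := by
      have h := b2 σ
      rw [two_nsmul] at h
      exact (eq_neg_of_add_eq_zero_left h).symm
    have h1 : sg (R.e j) ((c - c') σ) = sg (R.e j) (c σ) * sg (R.e j) (c' σ) := by
      rw [Pi.sub_apply, sub_eq_add_neg, hneg]
      exact sg_add h2 hrt (a2 σ) (b2 σ) j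
    show σ (w i / w' i) = sg (R.e j) ((c - c') σ) * (w j / w' j)
    rw [map_div₀, a3 σ i j hij, b3 σ i j hij, h1]
    have h3 := sg_sq (R.e j) (c' σ)
    have h4 : sg (R.e j) (c' σ) ≠ 0 := left_ne_zero_of_mul_eq_one h3
    have h5 := b1 j
    rw [div_eq_iff (mul_ne_zero h4 h5)]
    field_simp
    rw [pow_two, h3]
    ring

open Classical in
theorem cob_iff (hE : E.a = 0) (hd : E.disc ≠ 0) (R : Rts E Ω) {u : (E.Alg K)ˣ}
    (hu : IsSquare (Algebra.norm K (u : E.Alg K))) {w : Fin 3 → Ω}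
    (hw : ∀ i, w i ^ 2 = R.ev K i u) {c : (Ω ≃ₐ[K] Ω) → Pt (WK E K) Ω} (hc : As R w c) :
    IsCoboundary (WK E K) Ω c ↔ u ∈ E.imSub K := by
  have hdK : ((E.disc : ℤ) : K) ≠ 0 := by exact_mod_cast hd
  rw [E.mem_imSub_iff two_ne_zero hdK]
  constructor
  · rintro ⟨Q, hQ⟩
    exact rel_of_cob (L := K) hE hd R hu hw hc (Q := Q) hQ
  · rintro ⟨P, hP⟩
    obtain ⟨Q, hQ⟩ := cob_of_rel (L := K) hE hd R hw hc hP
    exact ⟨Q, hQ⟩

open Classical in
theorem sel_iff [NumberField K] (hE : E.a = 0) (hd : E.disc ≠ 0) (R : Rts E Ω) {u : (E.Alg K)ˣ}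
    (hu : IsSquare (Algebra.norm K (u : E.Alg K))) {w : Fin 3 → Ω}
    (hw : ∀ i, w i ^ 2 = R.ev K i u) {c : (Ω ≃ₐ[K] Ω) → Pt (WK E K) Ω} (hc : As R w c)
    (hcc : IsCocycle (WK E K) Ω c) :
    c ∈ ZSha (WK E K) Ω ↔ u ∈ E.selSub K := by
  have hfin : ∀ v : IsDedekindDomain.HeightOneSpectrum (𝓞 K), LocTriv (WK E K) Ω (v.adicCompletion K) c ↔
      E.uMap (algebraMap K (v.adicCompletion K)) u ∈ E.imSub (v.adicCompletion K) := by
    intro v
    have hcv : CharZero (v.adicCompletion K) :=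
      charZero_of_injective_algebraMap (algebraMap K (v.adicCompletion K)).injective
    exact loc_iff hE hd R hu hw hc _
  have hinf : ∀ v : InfinitePlace K, LocTriv (WK E K) Ω v.Completion c ↔
      E.uMap (algebraMap K v.Completion) u ∈ E.imSub v.Completion := by
    intro v
    have hcv : CharZero v.Completion :=
      charZero_of_injective_algebraMap (algebraMap K v.Completion).injective
    exact loc_iff hE hd R hu hw hc _
  unfold Cub.selSub
  rw [Subgroup.mem_inf, Subgroup.mem_inf, Subgroup.mem_iInf, Subgroup.mem_iInf]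
  constructor
  · rintro ⟨-, h1, h2⟩
    exact ⟨hu, fun v => (hfin v).1 (h1 v), fun v => (hinf v).1 (h2 v)⟩
  · rintro ⟨-, h1, h2⟩
    exact ⟨hcc, fun v => (hfin v).2 (h1 v), fun v => (hinf v).2 (h2 v)⟩

end H16G
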