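import Pool.Agent.Lib.H16G.G8
import Pool.Agent.Lib.H16G.G11

/-!
# G12 (M): from explicit descent to the Tate-Shafarevich group

`R` from `exists_rts`.  For `u ∈ selSub` the norm is a square (`selSub ≤ normSq`), `exists_cocycle` (G8) gives `w_u`, `c_u`, and `c_u ∈ ZSha` (`sel_iff`).  `f` = the class of
`c_u` for `u = Quotient.out x`.  `2 c_u = 0` gives `2 • f x = 0`.  Injective: if `f x = f x'` then `c_u - c_u'` is a coboundary; it
has `As R (w_u / w_u')` (`as_sub`) for the unit `u / u'` (norm a square: `normSq` is a subgroup; `(w/w')² = ev u / ev u'`), so `u / u' ∈ imSub` (`cob_iff`), and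
`x = x'` (`QuotientGroup.eq`, `Subgroup.mem_subgroupOf`).
(`Sha = ZSha ⧸ (BSha).addSubgroupOf ZSha`; it is a `def`: use `show`/`change` or `QuotientAddGroup.mk` with a type ascription, as in
H16C/Main or H16C/SH files.)
-/

open Polynomial H16A H16C NumberField

namespace H16G

open Classical in
theorem exists_inj1 {E : Cub} {K Ω : Type*} [Field K] [Field Ω] [Algebra K Ω] [IsAlgClosed Ω]
    [Algebra.IsAlgebraic K Ω] [NumberField K] (hE : E.a = 0) (hd : E.disc ≠ 0) :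
    ∃ f : E.Sha2 K → Sha (WK E K) Ω, Function.Injective f ∧ ∀ x, 2 • f x = 0 := by
  obtain ⟨R⟩ := exists_rts (E := E) (Ω := Ω) K hd
  obtain ⟨out, hout⟩ : ∃ out : E.Sha2 K → E.selSub K, ∀ x, (QuotientGroup.mk (out x) : E.Sha2 K) = x :=
    ⟨Quotient.out, QuotientGroup.out_eq'⟩
  have hsq : ∀ u : E.selSub K, IsSquare (Algebra.norm K ((u : (E.Alg K)ˣ) : E.Alg K)) := by
    intro u
    have h : (u : (E.Alg K)ˣ) ∈ E.normSq K := (Subgroup.mem_inf.1 u.2).1
    exact h
  have hex : ∀ u : E.selSub K, ∃ (w : Fin 3 → Ω) (c : (Ω ≃ₐ[K] Ω) → Pt (WK E K) Ω),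
      (∀ i, w i ^ 2 = R.ev K i (u : (E.Alg K)ˣ)) ∧ As R w c ∧ c ∈ ZSha (WK E K) Ω := by
    intro u
    obtain ⟨w, c, hw, hc, hcc⟩ := exists_cocycle hE hd R (u : (E.Alg K)ˣ) (hsq u)
    exact ⟨w, c, hw, hc, (sel_iff hE hd R (hsq u) hw hc hcc).2 u.2⟩
  choose w c hw hc hz using hex
  let f : E.Sha2 K → Sha (WK E K) Ω := fun x =>
    (QuotientAddGroup.mk (⟨c (out x), hz (out x)⟩ : ZSha (WK E K) Ω) :
      ZSha (WK E K) Ω ⧸ (BSha (WK E K) Ω).addSubgroupOf (ZSha (WK E K) Ω))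
  refine ⟨f, ?_, ?_⟩
  · intro x x' hxx
    have h1 : (QuotientAddGroup.mk (⟨c (out x), hz (out x)⟩ : ZSha (WK E K) Ω) :
        ZSha (WK E K) Ω ⧸ (BSha (WK E K) Ω).addSubgroupOf (ZSha (WK E K) Ω)) =
        QuotientAddGroup.mk (⟨c (out x'), hz (out x')⟩ : ZSha (WK E K) Ω) := hxx
    have h2 := QuotientAddGroup.eq.1 h1.symm
    rw [AddSubgroup.mem_addSubgroupOf] at h2
    have h3 : c (out x) - c (out x') ∈ BSha (WK E K) Ω := by
      have e : c (out x) - c (out x') =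
          ((-(⟨c (out x'), hz (out x')⟩ : ZSha (WK E K) Ω) +
            (⟨c (out x), hz (out x)⟩ : ZSha (WK E K) Ω) : ZSha (WK E K) Ω) :
            (Ω ≃ₐ[K] Ω) → (WeierstrassCurve.Affine.baseChange (WK E K) Ω).Point) := by
        show _ = -(c (out x')) + c (out x)
        abel
      rw [e]
      exact h2
    obtain ⟨u, hu⟩ : ∃ u : (E.Alg K)ˣ, u = (out x).1 := ⟨_, rfl⟩
    obtain ⟨u', hu'⟩ : ∃ u' : (E.Alg K)ˣ, u' = (out x').1 := ⟨_, rfl⟩
    have hAs := as_sub hE R (hc (out x)) (hc (out x'))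
    have hmem : u / u' ∈ E.normSq K := by
      rw [hu, hu']
      exact div_mem (hsq (out x)) (hsq (out x'))
    have h4 : u / u' ∈ E.imSub K := by
      refine (cob_iff hE hd R (u := u / u') hmem (w := fun i => w (out x) i / w (out x') i) ?_ hAs).1 h3
      intro i
      have h5 : R.ev K i ((u / u' : (E.Alg K)ˣ) : E.Alg K) * R.ev K i (u' : E.Alg K) = R.ev K i (u : E.Alg K) := by
        rw [← map_mul, ← Units.val_mul, div_mul_cancel]
      have h6 : R.ev K i (u' : E.Alg K) ≠ 0 := (u'.isUnit.map (R.ev K i)).ne_zero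
      rw [div_pow, hw, hw, ← hu, ← hu', div_eq_iff h6]
      exact h5.symm
    have h5 : (out x)⁻¹ * (out x') ∈ (E.imSub K).subgroupOf (E.selSub K) := by
      rw [Subgroup.mem_subgroupOf]
      have h6 := (E.imSub K).inv_mem h4
      have e : ((((out x)⁻¹ * (out x') : E.selSub K)) : (E.Alg K)ˣ) = (u / u')⁻¹ := by
        rw [inv_div, Subgroup.coe_mul, Subgroup.coe_inv, hu, hu']
        rw [div_eq_mul_inv, mul_comm]
      rw [e]
      exact h6
    have h6 : (QuotientGroup.mk (out x) : E.Sha2 K) = QuotientGroup.mk (out x') :=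
      QuotientGroup.eq.2 h5
    rw [hout, hout] at h6
    exact h6
  · intro x
    have h1 : 2 • (⟨c (out x), hz (out x)⟩ : ZSha (WK E K) Ω) = 0 := by
      apply Subtype.ext
      funext g
      exact (hc (out x)).2.1 g
    have h2 : 2 • (QuotientAddGroup.mk (⟨c (out x), hz (out x)⟩ : ZSha (WK E K) Ω) :
      ZSha (WK E K) Ω ⧸ (BSha (WK E K) Ω).addSubgroupOf (ZSha (WK E K) Ω)) = 0 := by
      rw [← QuotientAddGroup.mk_nsmul, h1]
      rfl
    exact h2

end H16G
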