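import Pool.Agent.Lib.H16G.G9
import Pool.Agent.Lib.H16G.G11
import Pool.Agent.Lib.H16F.M2
import Pool.Agent.Lib.H16C.SE2

/-!
# G13 (M): from the Tate-Shafarevich group to explicit descent

`R` from `exists_rts`.  `x ∈ Sha`, `2 x = 0`: `sha_rep` (H16F/M2) with `q = 2` and `b` from `exists_bad Ω W 2` (grep; `Bad.good`, `Bad.dvd`, `W = WK E K`,
`shortK`, `ellK` of G4) gives `c ∈ ZSha` with class `x` and `2 c = 0`.
`exists_w`, `exists_unit` (G9): `w`, `u` for `c`; `u ∈ selSub` (`sel_iff`).  `f x` = the class of `u` in `Sha2`.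
Injective: if `u / u' ∈ imSub` then (`as_sub`, `cob_iff`) `c - c'` is a coboundary, so the classes are equal.
-/

open Polynomial H16A H16C NumberField

namespace H16G

open Classical in
theorem g13_rep {E : Cub} {K Ω : Type*} [Field K] [Field Ω] [Algebra K Ω] [IsAlgClosed Ω]
    [Algebra.IsAlgebraic K Ω] [NumberField K] (hE : E.a = 0) (hd : E.disc ≠ 0)
    (x : Sha (WK E K) Ω) (hx : 2 • x = 0) :
    ∃ (c : (Ω ≃ₐ[K] Ω) → Pt (WK E K) Ω) (h : c ∈ ZSha (WK E K) Ω),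
      (QuotientAddGroup.mk (⟨c, h⟩ : ZSha (WK E K) Ω) : Sha (WK E K) Ω) = x ∧ ∀ g, 2 • c g = 0 := by
  have hcz : CharZero Ω := charZero_of_injective_algebraMap (algebraMap K Ω).injective
  have hsh : (WK E K).IsShortNF := shortK hE
  have hell : (WK E K).IsElliptic := ellK hE hd
  obtain ⟨b, hb⟩ := exists_bad Ω (WK E K) 2 (by norm_num)
  obtain ⟨c, h, h1, h2, -⟩ := H16F.sha_rep (WK E K) 2 b (by norm_num) (Dvd.dvd.trans ⟨6, by norm_num⟩ hb.dvd) (fun A hA => hb.good A hA) x hx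
  exact ⟨c, h, h1, h2⟩

open Classical in
theorem exists_inj2 {E : Cub} {K Ω : Type*} [Field K] [Field Ω] [Algebra K Ω] [IsAlgClosed Ω]
    [Algebra.IsAlgebraic K Ω] [NumberField K] (hE : E.a = 0) (hd : E.disc ≠ 0) :
    ∃ f : {x : Sha (WK E K) Ω // 2 • x = 0} → E.Sha2 K, Function.Injective f := by
  obtain ⟨R⟩ := exists_rts (E := E) (Ω := Ω) K hd
  have hex : ∀ x : {x : Sha (WK E K) Ω // 2 • x = 0}, ∃ (c : (Ω ≃ₐ[K] Ω) → Pt (WK E K) Ω)
      (h : c ∈ ZSha (WK E K) Ω) (w : Fin 3 → Ω) (u : (E.Alg K)ˣ),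
      (QuotientAddGroup.mk (⟨c, h⟩ : ZSha (WK E K) Ω) : Sha (WK E K) Ω) = x.1 ∧ As R w c ∧
      IsSquare (Algebra.norm K (u : E.Alg K)) ∧ (∀ i, w i ^ 2 = R.ev K i u) ∧ u ∈ E.selSub K := by
    intro x
    obtain ⟨c, h, h1, h2⟩ := g13_rep hE hd x.1 x.2
    obtain ⟨w, hw⟩ := exists_w hE hd R h.1 h2
    obtain ⟨u, hu1, hu2⟩ := exists_unit hE hd R hw
    exact ⟨c, h, w, u, h1, hw, hu1, hu2, (sel_iff hE hd R hu1 hu2 hw h.1).1 h⟩
  choose c hz w u hc hAs hsq hwu hu using hex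
  refine ⟨fun x => QuotientGroup.mk (⟨u x, hu x⟩ : E.selSub K), ?_⟩
  intro x x' hxx
  have h1 : (QuotientGroup.mk (⟨u x, hu x⟩ : E.selSub K) : E.Sha2 K) =
      QuotientGroup.mk (⟨u x', hu x'⟩ : E.selSub K) := hxx
  have h2 := QuotientGroup.eq.1 h1.symm
  rw [Subgroup.mem_subgroupOf] at h2
  have h3 : u x / u x' ∈ E.imSub K := by
    have e : u x / u x' = (((⟨u x', hu x'⟩ : E.selSub K)⁻¹ * (⟨u x, hu x⟩ : E.selSub K) : E.selSub K) : (E.Alg K)ˣ) := by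
      show _ = (u x')⁻¹ * u x
      rw [div_eq_mul_inv, mul_comm]
    rw [e]
    exact h2
  have hAs2 := as_sub hE R (hAs x) (hAs x')
  have hmem : u x / u x' ∈ E.normSq K := div_mem (hsq x) (hsq x')
  have h4 : IsCoboundary (WK E K) Ω (c x - c x') := by
    refine (cob_iff hE hd R (u := u x / u x') hmem (w := fun i => w x i / w x' i) ?_ hAs2).2 h3
    intro i
    have h5 : R.ev K i ((u x / u x' : (E.Alg K)ˣ) : E.Alg K) * R.ev K i (u x' : E.Alg K) =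
        R.ev K i (u x : E.Alg K) := by
      rw [← map_mul, ← Units.val_mul, div_mul_cancel]
    have h6 : R.ev K i (u x' : E.Alg K) ≠ 0 := ((u x').isUnit.map (R.ev K i)).ne_zero
    rw [div_pow, hwu, hwu, div_eq_iff h6]
    exact h5.symm
  have h5 : (QuotientAddGroup.mk (⟨c x', hz x'⟩ : ZSha (WK E K) Ω) : ZSha (WK E K) Ω ⧸ (BSha (WK E K) Ω).addSubgroupOf (ZSha (WK E K) Ω)) =
      QuotientAddGroup.mk (⟨c x, hz x⟩ : ZSha (WK E K) Ω) := by
    refine QuotientAddGroup.eq.2 ?_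
    rw [AddSubgroup.mem_addSubgroupOf]
    have e : ((-(⟨c x', hz x'⟩ : ZSha (WK E K) Ω) + (⟨c x, hz x⟩ : ZSha (WK E K) Ω) : ZSha (WK E K) Ω) :
        (Ω ≃ₐ[K] Ω) → (WeierstrassCurve.Affine.baseChange (WK E K) Ω).Point) = c x - c x' := by
      show -(c x') + c x = _
      abel
    rw [e]
    exact h4
  have h6 : (QuotientAddGroup.mk (⟨c x', hz x'⟩ : ZSha (WK E K) Ω) : Sha (WK E K) Ω) =
      QuotientAddGroup.mk (⟨c x, hz x⟩ : ZSha (WK E K) Ω) := h5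
  rw [hc, hc] at h6
  exact Subtype.ext h6.symm

end H16G
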