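import Mathlib

/-!
# G14 (S/M, pure Mathlib): counting elements of order two

`embed_of_card`: the subgroup `G[2] = {x | 2 • x = 0}` is a vector space over `ZMod 2` (`AddCommGroup.zmodModule`).  The images `f x`,
`x ∈ s`, are `≥ 2^r` elements of it; their span `V` is finite dimensional with `≥ 2^r` elements, `#V = 2^(dim V)`
(`Module.card_eq_pow_finrank`), so `dim V ≥ r` and there is an injective linear map `(Fin r → ZMod 2) → V` (a linearly independent
family of `r` vectors: `Module.finBasis`, `Fin.castLE`).
`card_of_embed`: the elements `g v` are killed by `2` (`2 • v = 0` in `Fin s → ZMod 2`), so `v ↦ f ⟨g v, _⟩` is injective: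
`2^s = #(Fin s → ZMod 2) ≤ #T` (`Nat.card_le_card_of_injective`).
-/

namespace H16G

theorem embed_of_card {G T : Type*} [AddCommGroup G] (f : T → G) (hf : Function.Injective f)
    (h2 : ∀ x, 2 • f x = 0) (s : Finset T) (r : ℕ) (hr : 2 ^ r ≤ s.card) :
    ∃ g : (Fin r → ZMod 2) →+ G, Function.Injective g := by
  classical
  let H : AddSubgroup G := (nsmulAddMonoidHom (α := G) 2).ker
  have hH : ∀ x : H, 2 • x = 0 := by
    intro x
    have h1 := x.2
    rw [AddMonoidHom.mem_ker] at h1
    exact Subtype.ext h1
  let _ : Module (ZMod 2) H := AddCommGroup.zmodModule hH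
  have : Fact (Nat.Prime 2) := ⟨Nat.prime_two⟩
  let f' : T → H := fun x => ⟨f x, by rw [AddMonoidHom.mem_ker]; exact h2 x⟩
  have hf' : Function.Injective f' := fun x y hxy => hf (congrArg Subtype.val hxy)
  let V : Submodule (ZMod 2) H := Submodule.span (ZMod 2) ((s.image f' : Finset H) : Set H)
  have : Module.Finite (ZMod 2) V := Module.Finite.span_finset (ZMod 2) (s.image f')
  have : Finite V := Module.finite_of_finite (ZMod 2)
  let _ : Fintype V := Fintype.ofFinite V
  have hcard : s.card ≤ Fintype.card V := by
    have h1 : s.card ≤ (Finset.univ : Finset V).card := by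
      refine Finset.card_le_card_of_injOn
        (fun x => if h : f' x ∈ V then (⟨f' x, h⟩ : V) else 0) (fun _ _ => Finset.mem_coe.2
          (Finset.mem_univ _)) ?_
      intro x hx y hy hxy
      have hx' : f' x ∈ V := Submodule.subset_span (by
        rw [Finset.mem_coe, Finset.mem_image]
        exact ⟨x, hx, rfl⟩)
      have hy' : f' y ∈ V := Submodule.subset_span (by
        rw [Finset.mem_coe, Finset.mem_image]
        exact ⟨y, hy, rfl⟩)
      simp only [dif_pos hx', dif_pos hy'] at hxy
      exact hf' (congrArg Subtype.val hxy)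
    simpa using h1
  have hV := Module.card_eq_pow_finrank (K := ZMod 2) (V := V)
  rw [ZMod.card] at hV
  have hrV : r ≤ Module.finrank (ZMod 2) V := by
    have h1 : 2 ^ r ≤ 2 ^ Module.finrank (ZMod 2) V := by rw [← hV]; exact hr.trans hcard
    exact (Nat.pow_le_pow_iff_right (by norm_num)).1 h1
  let b := Module.finBasis (ZMod 2) V
  let v : Fin r → V := fun i => b (Fin.castLE hrV i)
  have hv : LinearIndependent (ZMod 2) v :=
    b.linearIndependent.comp _ (Fin.castLE_injective hrV)
  have hinj := linearIndependent_iff_injective_fintypeLinearCombination.1 hv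
  refine ⟨(H.subtype.comp (V.subtype.toAddMonoidHom)).comp
    (Fintype.linearCombination (ZMod 2) v).toAddMonoidHom, ?_⟩
  intro x y hxy
  apply hinj
  exact Subtype.ext (Subtype.ext hxy)

theorem card_of_embed {G T : Type*} [AddCommGroup G] [Finite T] (f : {x : G // 2 • x = 0} → T)
    (hf : Function.Injective f) (s : ℕ) (g : (Fin s → ZMod 2) →+ G) (hg : Function.Injective g) :
    2 ^ s ≤ Nat.card T := by
  have h2 : ∀ v, 2 • g v = 0 := by
    intro v
    rw [← map_nsmul]
    have : 2 • v = 0 := by
      funext i
      show 2 • v i = 0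
      rw [nsmul_eq_mul]
      have : ((2 : ℕ) : ZMod 2) = 0 := by decide
      rw [this, zero_mul]
    rw [this, map_zero]
  have h3 : Function.Injective (fun v => f ⟨g v, h2 v⟩) := by
    intro v w hvw
    exact hg (congrArg Subtype.val (hf hvw))
  have h4 := Nat.card_le_card_of_injective _ h3
  rwa [Nat.card_fun, Nat.card_fin, Nat.card_zmod] at h4

end H16G
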