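import Pool.Agent.Lib.H16A.D3

/-!
# G15 (S/M): the imaginary quadratic fields inside the algebraic closure of `ℚ`

From `exists_imag_quadratic` (H16A/D3): a field `K'`, `δ' ∈ K'`.  Let `φ : K' → ℚ^alg` be an embedding (`IsAlgClosed.lift`),
`δ = φ δ'`.  `ℚ⟮δ⟯` is the image of `φ` (`K' = ℚ⟮δ'⟯` because `δ' ∉ ℚ` and `[K':ℚ] = 2`), so `ℚ⟮δ⟯ ≃ K'` (`AlgEquiv`), and the
discriminants are equal (`NumberField.discr_eq_discr_of_algEquiv` or `..._of_ringEquiv`).  `gen = AdjoinSimple.gen ℚ δ`.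
-/

open Polynomial NumberField IntermediateField H16A

namespace H16G

theorem exists_imag (D : ℤ) (hD : D < 0) (hsq : Squarefree D) :
    ∃ (δ : AlgebraicClosure ℚ) (_ : NumberField ℚ⟮δ⟯), δ ^ 2 = (D : AlgebraicClosure ℚ) ∧
      Module.finrank ℚ ℚ⟮δ⟯ = 2 ∧
      (AdjoinSimple.gen ℚ δ) ^ 2 = ((D : ℤ) : ℚ⟮δ⟯) ∧
      AdjoinSimple.gen ℚ δ ∉ Set.range (algebraMap ℚ ℚ⟮δ⟯) ∧ discr ℚ⟮δ⟯ < 0 ∧
      |discr ℚ⟮δ⟯| ≤ 4 * |D| ∧ |D| ≤ |discr ℚ⟮δ⟯| := by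
  obtain ⟨δ, hδ⟩ := IsAlgClosed.exists_pow_nat_eq (D : AlgebraicClosure ℚ) (n := 2) (by norm_num)
  have hint : IsIntegral ℚ δ := (AlgebraicClosure.isAlgebraic ℚ).isAlgebraic δ |>.isIntegral
  have hfd : FiniteDimensional ℚ ℚ⟮δ⟯ := adjoin.finiteDimensional hint
  have hNF : NumberField ℚ⟮δ⟯ := ⟨⟩
  have hg : (AdjoinSimple.gen ℚ δ) ^ 2 = ((D : ℤ) : ℚ⟮δ⟯) := by
    apply Subtype.ext
    have h1 : (((AdjoinSimple.gen ℚ δ) ^ 2 : ℚ⟮δ⟯) : AlgebraicClosure ℚ) = δ ^ 2 := by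
      rw [SubmonoidClass.coe_pow, AdjoinSimple.coe_gen]
    rw [h1, hδ]
    simp
  have hr : AdjoinSimple.gen ℚ δ ∉ Set.range (algebraMap ℚ ℚ⟮δ⟯) := by
    rintro ⟨r, hr1⟩
    rw [← hr1] at hg
    have h1 : algebraMap ℚ ℚ⟮δ⟯ (r ^ 2) = algebraMap ℚ ℚ⟮δ⟯ (D : ℚ) := by
      rw [map_pow, hg]
      simp
    have h2 := (algebraMap ℚ ℚ⟮δ⟯).injective h1
    have h3 : (D : ℚ) < 0 := by exact_mod_cast hD
    nlinarith [sq_nonneg r]
  have hfr : Module.finrank ℚ ℚ⟮δ⟯ = 2 := by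
    rw [adjoin.finrank hint]
    have hm : (X ^ 2 - C (D : ℚ)).Monic := monic_X_pow_sub_C _ (by norm_num)
    have hd : (X ^ 2 - C (D : ℚ)).natDegree = 2 := natDegree_X_pow_sub_C
    have hirr : Irreducible (X ^ 2 - C (D : ℚ)) := by
      rw [hm.irreducible_iff_roots_eq_zero_of_degree_le_three (by rw [hd]) (by rw [hd]; norm_num)]
      rw [Multiset.eq_zero_iff_forall_notMem]
      intro r hr1
      rw [mem_roots hm.ne_zero, IsRoot.def, eval_sub, eval_pow, eval_X, eval_C, sub_eq_zero] at hr1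
      have h1 : (D : ℚ) < 0 := by exact_mod_cast hD
      nlinarith [sq_nonneg r]
    have h1 : X ^ 2 - C (D : ℚ) = minpoly ℚ δ := by
      refine minpoly.eq_of_irreducible_of_monic hirr ?_ hm
      simp [hδ]
    rw [← h1, hd]
  obtain ⟨m, hm1⟩ := d3_index hfr D hg hr
  have hm2 : m ∣ 2 := d3_dvd_two hD.ne hsq ⟨_, hm1⟩
  have hm0 : m ≠ 0 := by
    rintro rfl
    rw [zero_pow (by norm_num), zero_mul] at hm1
    omega
  have hmle : m ^ 2 ≤ 4 := by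
    have h1 := Int.le_of_dvd (by norm_num) ((abs_dvd m 2).2 hm2)
    have h2 := abs_nonneg m
    rw [← sq_abs]
    nlinarith
  have hmge : 1 ≤ m ^ 2 := by
    have := sq_pos_of_ne_zero hm0
    omega
  refine ⟨δ, hNF, hδ, hfr, hg, hr, ?_⟩
  set Δ := discr ℚ⟮δ⟯ with hΔ
  have hneg : Δ < 0 := by
    by_contra h1
    push Not at h1
    nlinarith
  refine ⟨hneg, ?_, ?_⟩
  · rw [abs_of_neg hneg, abs_of_neg hD]
    nlinarith
  · rw [abs_of_neg hneg, abs_of_neg hD]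
    nlinarith

end H16G
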