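import Pool.Agent.Lib.H16B.F2
import Pool.Agent.Lib.H16G.G16

/-!
# G17 (S, port): the lower bound with every constant `κ < 2`, fields inside the algebraic closure of `ℚ`

The proof of `sha_lower2` (H16B/F3) with `sha_core3` (G16) instead of `sha_core2`.
-/

open Polynomial IsDedekindDomain NumberField IntermediateField H16A H16B

namespace H16G

theorem sha_lower3 (E : Cub) (hd : E.disc ≠ 0) {κ : ℝ} (hκ : κ < 2) :
    ∃ X₀ : ℝ, ∀ X : ℝ, X₀ ≤ X →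
    ∃ (D : ℤ) (δ : AlgebraicClosure ℚ) (_ : NumberField ℚ⟮δ⟯), D < 0 ∧
      δ ^ 2 = (D : AlgebraicClosure ℚ) ∧ Module.finrank ℚ ℚ⟮δ⟯ = 2 ∧
      |(discr ℚ⟮δ⟯ : ℝ)| ≤ X ∧ ∃ s : Finset (E.Sha2 ℚ⟮δ⟯),
        (2 : ℝ) ^ (κ * (Real.log X / Real.log (Real.log X))) ≤ (s.card : ℝ) := by
  obtain ⟨κ₁, hκ₁⟩ : ∃ κ₁ : ℝ, κ₁ = max κ (1 / 2) := ⟨_, rfl⟩
  have a1 : κ ≤ κ₁ := by rw [hκ₁]; exact le_max_left _ _
  have a2 : 0 < κ₁ := by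
    rw [hκ₁]
    exact lt_of_lt_of_le (by norm_num) (le_max_right _ _)
  have a3 : κ₁ < 2 := by
    rw [hκ₁]
    exact max_lt hκ (by norm_num)
  obtain ⟨κ', hκ'⟩ : ∃ κ' : ℝ, κ' = (κ₁ + 2) / 2 := ⟨_, rfl⟩
  obtain ⟨F, _, _, ⟨S⟩⟩ := exists_split E hd
  obtain ⟨δ₀, hδ₀, hr⟩ := real_top a2 (by linarith : κ₁ < κ')
  obtain ⟨C, x₂, hC, hcore⟩ := sha_core3 S hd (κ' := κ') (by linarith) (by linarith) hδ₀
  obtain ⟨η, hη0, hη1, hreal⟩ := hr C hC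
  obtain ⟨x₀, hsup⟩ := supply_top S hd hη0 hη1
  obtain ⟨X₀, hX₀⟩ := hreal (max x₀ x₂)
  refine ⟨max X₀ (Real.exp (Real.exp 1)), fun X hX => ?_⟩
  obtain ⟨x, n, b1, b2, b3, b4, b5, b6⟩ := hX₀ X ((le_max_left _ _).trans hX)
  obtain ⟨T, hT1, hT2⟩ := hsup x ((le_max_left _ _).trans b1)
  have hnT : n ≤ T.card := by
    have : (n : ℝ) ≤ T.card := b3.trans hT2
    exact_mod_cast this
  obtain ⟨T', hT', hT'c⟩ := Finset.exists_subset_card_eq hnT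
  obtain ⟨D, δ, hNF, c0, c1, c2, c3, s, c4⟩ := hcore x ((le_max_right _ _).trans b1) T'
    (fun p hp => hT1 p (hT' hp)) (by rw [hT'c]; exact b4)
  rw [hT'c] at c3 c4
  refine ⟨D, δ, hNF, c0, c1, c2, c3.trans b5, s, ?_⟩
  have h1 := fin4_mono a1 ((le_max_right _ _).trans hX)
  have h2 : C * (2 : ℝ) ^ (κ₁ * (Real.log X / Real.log (Real.log X))) ≤ C * (s.card : ℝ) :=
    b6.trans c4
  exact h1.trans (le_of_mul_le_mul_left h2 hC)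

end H16G
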