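import Pool.Agent.Lib.H16G.G12
import Pool.Agent.Lib.H16G.G14
import Pool.Agent.Lib.H16G.G17

/-!
# G18 (S/M, assembly): the sharp lower bound

W.l.o.g. `κ > 0` (replace it by `max κ 1`).  `κ' = (κ + 2)/2`.  `sha_lower3` with `κ'`: `2^(κ' t) ≤ #s`, `t = log X/loglog X → ∞`.  `r = ⌈κ t⌉₊`:
`κ t ≤ r < κ t + 1 ≤ κ' t` for large `X` (`t ≥ 1/(κ' - κ)`: `log X/loglog X` tends to infinity; grep `log X / log (log X)` in H16A/FIN4, H16C/Main, H16E).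
So `2^r ≤ #s` and `embed_of_card` with `exists_inj1`.
-/

open Polynomial NumberField IntermediateField H16A H16C

namespace H16G

theorem G18_tend : Filter.Tendsto (fun X : ℝ => Real.log X / Real.log (Real.log X))
    Filter.atTop Filter.atTop := by
  have h1 : Filter.Tendsto (fun t : ℝ => t / Real.log t) Filter.atTop Filter.atTop := by
    have h2 : Filter.Tendsto (fun t : ℝ => Real.log t / t) Filter.atTop (nhds 0) := by
      have h3 := Real.isLittleO_log_id_atTop.tendsto_div_nhds_zero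
      simpa using h3
    have h4 : Filter.Tendsto (fun t : ℝ => Real.log t / t) Filter.atTop (nhdsWithin 0 (Set.Ioi 0)) := by
      refine tendsto_nhdsWithin_iff.2 ⟨h2, ?_⟩
      filter_upwards [Filter.eventually_gt_atTop (1 : ℝ)] with t ht
      exact div_pos (Real.log_pos ht) (by linarith)
    have h5 := h4.inv_tendsto_nhdsGT_zero
    refine h5.congr fun t => ?_
    simp [inv_div]
  exact h1.comp Real.tendsto_log_atTop

open Classical in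
theorem sharp_lower (E : Cub) (hE : E.a = 0) (hd : E.disc ≠ 0) {κ : ℝ} (hκ : κ < 2) :
    ∃ X₀ : ℝ, ∀ X : ℝ, X₀ ≤ X →
    ∃ (D : ℤ) (δ : AlgebraicClosure ℚ) (_ : NumberField ℚ⟮δ⟯), D < 0 ∧
      δ ^ 2 = (D : AlgebraicClosure ℚ) ∧ Module.finrank ℚ ℚ⟮δ⟯ = 2 ∧
      |(discr ℚ⟮δ⟯ : ℝ)| ≤ X ∧ ∃ r : ℕ, κ * (Real.log X / Real.log (Real.log X)) ≤ r ∧
        ∃ f : (Fin r → ZMod 2) →+ Sha (WK E ℚ⟮δ⟯) (AlgebraicClosure ℚ), Function.Injective f := by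
  obtain ⟨κ₁, hκ₁⟩ : ∃ κ₁ : ℝ, κ₁ = max κ 1 := ⟨_, rfl⟩
  have a1 : κ ≤ κ₁ := by rw [hκ₁]; exact le_max_left _ _
  have a2 : 1 ≤ κ₁ := by rw [hκ₁]; exact le_max_right _ _
  have a3 : κ₁ < 2 := by rw [hκ₁]; exact max_lt hκ (by norm_num)
  obtain ⟨X₁, hX₁⟩ := sha_lower3 E hd (κ := (κ₁ + 2) / 2) (by linarith)
  obtain ⟨X₂, hX₂⟩ := Filter.eventually_atTop.1 (G18_tend.eventually_ge_atTop (2 / (2 - κ₁)))
  refine ⟨max X₁ X₂, fun X hX => ?_⟩
  obtain ⟨D, δ, hNF, h1, h2, h3, h4, s, h5⟩ := hX₁ X ((le_max_left _ _).trans hX)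
  have h6 := hX₂ X ((le_max_right _ _).trans hX)
  set t := Real.log X / Real.log (Real.log X) with ht
  have h2κ : 0 < 2 - κ₁ := by linarith
  have ht0 : 0 ≤ t := le_trans (by positivity) h6
  have h7 : κ₁ * t + 1 ≤ (κ₁ + 2) / 2 * t := by
    rw [div_le_iff₀ h2κ] at h6
    nlinarith
  refine ⟨D, δ, hNF, h1, h2, h3, h4, ⌈κ₁ * t⌉₊, ?_, ?_⟩
  · exact (mul_le_mul_of_nonneg_right a1 ht0).trans (Nat.le_ceil _)
  · have halg0 : Algebra.IsAlgebraic ℚ (AlgebraicClosure ℚ) := AlgebraicClosure.isAlgebraic ℚ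
    have halg : Algebra.IsAlgebraic ℚ⟮δ⟯ (AlgebraicClosure ℚ) :=
      Algebra.IsAlgebraic.tower_top (K := ℚ) ℚ⟮δ⟯
    obtain ⟨f, hf, hf2⟩ := exists_inj1 (E := E) (K := ℚ⟮δ⟯) (Ω := AlgebraicClosure ℚ) hE hd
    refine embed_of_card f hf hf2 s _ ?_
    have h8 : ((⌈κ₁ * t⌉₊ : ℕ) : ℝ) ≤ (κ₁ + 2) / 2 * t :=
      (Nat.ceil_lt_add_one (by positivity)).le.trans h7
    have h9 : ((2 : ℝ) ^ (⌈κ₁ * t⌉₊ : ℕ)) ≤ (s.card : ℝ) := by
      refine le_trans ?_ h5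
      rw [← Real.rpow_natCast]
      exact Real.rpow_le_rpow_of_exponent_le (by norm_num) h8
    exact_mod_cast h9

end H16G
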