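import Pool.Agent.Lib.H16G.G13
import Pool.Agent.Lib.H16G.G14
import Pool.Agent.Lib.H16A.FIN6

/-!
# G19 (S/M, assembly): the sharp upper bound

`upper_all` (H16A/FIN6, `Cub.upper_all`): `#Sha2 * [E(K) : 2 E(K)] ≤ 2^(κ t)`, `fin6_finite`: `E(K)` finitely generated, `Sha2` finite, `2^rank ≤ [E(K) : 2 E(K)]`.
`exists_inj2`, `card_of_embed`: `2^s ≤ #Sha2`.  So `2^(s + rank) ≤ 2^(κ t)`, `s + rank ≤ κ t` (`Real.rpow_le_rpow_left_iff`).
`E.Pt K` is `(WK E K).Point` by definition.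
-/

open Polynomial NumberField IntermediateField H16A H16C

namespace H16G

open Classical in
theorem sharp_upper (E : Cub) (hE : E.a = 0) (hd : E.disc ≠ 0) {κ : ℝ} (hκ : 2 < κ) :
    ∃ X₀ : ℝ, ∀ X : ℝ, X₀ ≤ X →
    ∀ (K : IntermediateField ℚ (AlgebraicClosure ℚ)) (_ : NumberField K), Module.finrank ℚ K = 2 →
      |(discr K : ℝ)| ≤ X → Module.Finite ℤ (WK E K).Point ∧
        ∀ (s : ℕ) (f : (Fin s → ZMod 2) →+ Sha (WK E K) (AlgebraicClosure ℚ)),
          Function.Injective f →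
          (s : ℝ) + Module.finrank ℤ (WK E K).Point ≤
            κ * (Real.log X / Real.log (Real.log X)) := by
  obtain ⟨X₀, hX₀⟩ := E.upper_all hd hκ
  obtain ⟨C₀, hC₀⟩ := E.fin6_finite hd
  refine ⟨X₀, fun X hX K hNF hK hKX => ?_⟩
  have h1 := hX₀ X hX K hK hKX
  obtain ⟨h2, h3, h4, -, -, -⟩ := hC₀ K hK
  refine ⟨h2, fun s f hf => ?_⟩
  have halg0 : Algebra.IsAlgebraic ℚ (AlgebraicClosure ℚ) := AlgebraicClosure.isAlgebraic ℚ
  have halg : Algebra.IsAlgebraic K (AlgebraicClosure ℚ) :=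
    Algebra.IsAlgebraic.tower_top (K := ℚ) K
  obtain ⟨φ, hφ⟩ := exists_inj2 (E := E) (K := K) (Ω := AlgebraicClosure ℚ) hE hd
  have h5 := card_of_embed φ hφ s f hf
  have h6 : (2 : ℝ) ^ (s + Module.finrank ℤ (E.Pt K)) ≤
      (2 : ℝ) ^ (κ * (Real.log X / Real.log (Real.log X))) := by
    refine le_trans ?_ h1
    rw [pow_add]
    exact_mod_cast Nat.mul_le_mul h5 h4
  rw [← Real.rpow_natCast, Real.rpow_le_rpow_left_iff (by norm_num)] at h6
  push_cast at h6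
  exact h6

end H16G
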