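import Pool.Agent.Lib.H16G.G1
import Pool.Agent.Lib.H16G.G2
import Pool.Agent.Lib.H16G.G3
import Pool.Agent.Lib.H16G.G4
import Pool.Agent.Lib.H16G.G5

/-!
# G6 (M): a coboundary gives a point

`W = WK E K`, `V = baseChange W Ω`, `RtV V R.e` (`rtv`), `σ Q` = `act W Ω (σ.restrictScalars K) Q`.  `c σ = σ Q - Q`, `2 c σ = 0`.
So `2 Q` is fixed by `Gal(Ω/L)`.
* If `2 Q = 0`: `w' i = sg (e i) Q * w i`.  For `σ (e i) = e j`: `σ (w' i) = sg (e i) Q * sg (e j) (c σ) * w j` and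
  `c σ = σ Q - Q = σ Q + Q` (`2 Q = 0`), `sg (e j) (σ Q) = sg (e i) Q` (`sg_act`), `sg_add`, `sg_sq`: `σ (w' i) = w' j`.  `ev_desc` gives
  `z ∈ L[θ]` with `ev i z = w' i`; `(w' i)² = (w i)² = ev i u`: `z² = u` (`ev_inj`).  `P = .zero`: `Rel` is `IsSquare u`.
* If `2 Q ≠ 0`: `yc Q ≠ 0` (`two_smul_eq_zero_iff`), the coordinates `xc (2 Q)`, `yc (2 Q)` are fixed by `Gal(Ω/L)` (`xc_act`, `yc_act`), hence images of
  `x, y ∈ L`; `(x, y)` is a nonsingular point `P` of `E` over `L` (the equation holds over `Ω`, `algebraMap` is injective; nonsingular: `disc ≠ 0`,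
  e.g. `(ellK ..)` or `3 x² + b ≠ 0` if `y = 0`; or `Affine.Nonsingular` descends by `WeierstrassCurve.Affine.map_nonsingular`).
  `z i = gg (e i) Q / w i`: for `σ (e i) = e j`: `σ (gg (e i) Q) = gg (e j) (σ Q)` (`gg_act`) `= gg (e j) (Q + c σ) = sg (e j) (c σ) * gg (e j) Q` (`gg_add`), and
  `σ (w i) = sg (e j) (c σ) * w j`; so `σ (z i) = z j`.  `ev_desc`: `z ∈ L[θ]`, and `u z² = x - θ` by `ev_inj`: `ev i`:
  `(w i)² (gg/w i)² = gg² = xc (2 Q) - e i` (`gg_sq`).
`E.Rel L u (.some x y h)` is by definition `IsSquare (norm u) ∧ ∃ z, u z² = algebraMap x - θ`.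
-/

open Polynomial H16A H16C

namespace H16G

variable {E : Cub} {K L Ω : Type*} [Field K] [Field L] [Field Ω] [Algebra K L] [Algebra K Ω]
  [Algebra L Ω] [IsScalarTower K L Ω] [IsAlgClosed Ω] [Algebra.IsAlgebraic L Ω] [CharZero L]
  [CharZero K]

omit [CharZero L] in
theorem g6_short (hE : E.a = 0) : (WeierstrassCurve.Affine.baseChange (WK E K) Ω).IsShortNF := by
  have h := shortK (K := K) hE
  refine ⟨?_, ?_, ?_⟩
  · show algebraMap K Ω (WK E K).a₁ = 0
    rw [WeierstrassCurve.a₁_of_isShortNF, map_zero]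
  · show algebraMap K Ω (WK E K).a₂ = 0
    rw [WeierstrassCurve.a₂_of_isShortNF, map_zero]
  · show algebraMap K Ω (WK E K).a₃ = 0
    rw [WeierstrassCurve.a₃_of_isShortNF, map_zero]

theorem g6_fixed (x : Ω) (hx : ∀ σ : Ω ≃ₐ[L] Ω, σ x = x) : ∃ y : L, algebraMap L Ω y = x := by
  have hc : IsAlgClosure L Ω := ⟨inferInstance, inferInstance⟩
  have hg : IsGalois L Ω := IsAlgClosure.isGalois L Ω
  exact (InfiniteGalois.mem_range_algebraMap_iff_fixed x).2 hx

open Classical in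
theorem g6_perm (R : Rts E Ω) {w : Fin 3 → Ω} {u : E.Alg L} (hw : ∀ i, w i ^ 2 = R.ev L i u)
    (hw0 : ∀ i, w i ≠ 0) (z : E.Alg L) (w' : Fin 3 → Ω) (hz : ∀ i, R.ev L i z = w' i)
    (h : ∀ i, w' i ^ 2 = w i ^ 2) : z ^ 2 = u := by
  apply ev_inj R
  intro i
  rw [map_pow, hz, h, hw]

open Classical in
theorem rel_of_cob (hE : E.a = 0) (hd : E.disc ≠ 0) (R : Rts E Ω) {u : (E.Alg L)ˣ}
    (hu : IsSquare (Algebra.norm L (u : E.Alg L))) {w : Fin 3 → Ω}
    (hw : ∀ i, w i ^ 2 = R.ev L i u) {c : (Ω ≃ₐ[L] Ω) → Pt (WK E K) Ω} (hc : As R w c)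
    {Q : Pt (WK E K) Ω} (hQ : ∀ σ : Ω ≃ₐ[L] Ω, c σ = act (WK E K) Ω (σ.restrictScalars K) Q - Q) :
    ∃ P : E.Pt L, E.Rel L u P := by
  obtain ⟨hw0, hc2, hcw⟩ := hc
  have hsh := g6_short (K := K) (Ω := Ω) hE
  have hV := rtv (K := K) hE R
  have hΩ : CharZero Ω := charZero_of_injective_algebraMap (algebraMap L Ω).injective
  have h2 : (2 : Ω) ≠ 0 := two_ne_zero
  have hσQ : ∀ σ : Ω ≃ₐ[L] Ω, act (WK E K) Ω (σ.restrictScalars K) Q = Q + c σ := by
    intro σ
    rw [hQ σ]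
    abel
  have hσ2 : ∀ σ : Ω ≃ₐ[L] Ω, act (WK E K) Ω (σ.restrictScalars K) (2 • Q) = 2 • Q := by
    intro σ
    rw [map_nsmul, hσQ, smul_add, hc2, add_zero]
  have hrs : ∀ (σ : Ω ≃ₐ[L] Ω) (x : Ω), (σ.restrictScalars K) x = σ x := fun _ _ => rfl
  have hσsg : ∀ (σ : Ω ≃ₐ[L] Ω) (e : Ω) (T : Pt (WK E K) Ω), σ (sg e T) = sg e T := by
    intro σ e T
    rcases sg_cases e T with h | h
    · rw [h, map_one]
    · rw [h, map_neg, map_one]
  by_cases hQ2 : 2 • Q = 0
  · -- the point at infinity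
    have hneg : -Q = Q := by
      rw [two_nsmul] at hQ2
      exact (eq_neg_of_add_eq_zero_left hQ2).symm
    obtain ⟨z, hz⟩ := ev_desc (L := L) R (fun i => sg (R.e i) Q * w i) (by
      intro σ i j hij
      have h1 : sg (R.e i) Q = sg (R.e j) (act (WK E K) Ω (σ.restrictScalars K) Q) := by
        rw [← hij, ← hrs σ (R.e i), sg_act]
      have h3 : 2 • act (WK E K) Ω (σ.restrictScalars K) Q = 0 := by
        rw [← map_nsmul, hQ2, map_zero]
      have h4 : sg (R.e j) (c σ) = sg (R.e j) (act (WK E K) Ω (σ.restrictScalars K) Q) * sg (R.e j) Q := by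
        rw [hQ σ, sub_eq_add_neg, hneg]
        exact sg_add h2 hV h3 hQ2 j
      show σ (sg (R.e i) Q * w i) = sg (R.e j) Q * w j
      rw [map_mul, hσsg, hcw σ i j hij, h4, h1]
      have h5 := sg_sq (R.e j) (act (WK E K) Ω (σ.restrictScalars K) Q)
      linear_combination (sg (R.e j) Q * w j) * h5)
    refine ⟨WeierstrassCurve.Affine.Point.zero, ?_⟩
    show IsSquare (u : E.Alg L)
    refine ⟨z, ?_⟩
    rw [← pow_two]
    refine (g6_perm R hw hw0 z _ hz ?_).symm
    intro i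
    rw [mul_pow, pow_two (sg (R.e i) Q), sg_sq, one_mul]
  · -- a finite point
    have hQ0 : Q ≠ 0 := by
      rintro rfl
      exact hQ2 (smul_zero 2)
    have hy : yc Q ≠ 0 := fun h => hQ2 ((two_smul_eq_zero_iff h2 hQ0).2 h)
    obtain ⟨x, hx⟩ := g6_fixed (L := L) (xc (2 • Q)) (by
      intro σ
      rw [← hrs σ, ← xc_act, hσ2])
    obtain ⟨y, hyy⟩ := g6_fixed (L := L) (yc (2 • Q)) (by
      intro σ
      rw [← hrs σ, ← yc_act, hσ2])
    have heq : y ^ 2 = x ^ 3 + (E.b : L) * x + (E.c : L) := by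
      apply (algebraMap L Ω).injective
      have h := eqn hQ2
      rw [← hx, ← hyy] at h
      have h4 : (WeierstrassCurve.Affine.baseChange (WK E K) Ω).a₄ = (E.b : Ω) := by
        show algebraMap K Ω (algebraMap ℤ K E.b) = _
        simp
      have h6 : (WeierstrassCurve.Affine.baseChange (WK E K) Ω).a₆ = (E.c : Ω) := by
        show algebraMap K Ω (algebraMap ℤ K E.c) = _
        simp
      rw [h4, h6] at h
      simpa using h
    have hshL : (WeierstrassCurve.Affine.baseChange E.W L).IsShortNF := shortK hE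
    have hellL : (WeierstrassCurve.Affine.baseChange E.W L).IsElliptic := ellK hE hd
    obtain ⟨P, hP0, hPx, hPy⟩ := H16C.exists_pt (W := WeierstrassCurve.Affine.baseChange E.W L) x y (by
      rw [heq]
      have h4 : (WeierstrassCurve.Affine.baseChange E.W L).a₄ = (E.b : L) := by
        show algebraMap ℤ L E.b = _
        simp
      have h6 : (WeierstrassCurve.Affine.baseChange E.W L).a₆ = (E.c : L) := by
        show algebraMap ℤ L E.c = _
        simp
      rw [h4, h6])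
    obtain ⟨z, hz⟩ := ev_desc (L := L) R (fun i => gg (R.e i) Q / w i) (by
      intro σ i j hij
      show σ (gg (R.e i) Q / w i) = gg (R.e j) Q / w j
      obtain ⟨-, -, h5⟩ := gg_add h2 hV (hc2 σ) hQ0 hy j
      have h6 : σ (gg (R.e i) Q) = sg (R.e j) (c σ) * gg (R.e j) Q := by
        rw [← h5, ← hσQ σ, ← hij, ← hrs σ (R.e i), gg_act]
        rfl
      rw [map_div₀, h6, hcw σ i j hij]
      have h7 : sg (R.e j) (c σ) ≠ 0 := by
        rcases sg_cases (R.e j) (c σ) with h | h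
        · rw [h]; exact one_ne_zero
        · rw [h]; exact neg_ne_zero.2 one_ne_zero
      have h8 := hw0 j
      field_simp)
    rcases P with _ | ⟨x', y', hns⟩
    · exact absurd rfl hP0
    · have hxx : x' = x := hPx
      subst hxx
      refine ⟨WeierstrassCurve.Affine.Point.some x' y' hns, hu, z, ?_⟩
      apply ev_inj R
      intro i
      rw [map_mul, map_pow, hz, map_sub, ev_th, ev_alg, ← hw i, hx, ← gg_sq h2 (hV.root i) hQ0 hy]
      have h8 := hw0 i
      field_simp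

end H16G
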