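import Pool.Agent.Lib.H16G.G3
import Pool.Agent.Lib.H16G.G4
import Pool.Agent.Lib.H16G.G5

/-!
# G8 (M): the cocycle attached to an element of square norm

`w i` = a square root of `ev i u` in `Ω` (algebraically closed), `≠ 0`.  `(∏ w i)² = ∏ ev i u = norm u = r²` (`ev_norm`), so `∏ w i = ± r` is fixed by
`Gal(Ω/K)`.  For `g` and every `j` let `i` be the index with `g (e i) = e j` (`ev_perm'`, unique): `(g (w i))² = g (ev i u) = ev j u = (w j)²`
(`ev_perm`), so `g (w i) = s j w j`, `s j = ± 1`; `∏_j s_j = g (∏ w i) / ∏ w i = 1` (the map `j ↦ i` is a permutation).  `c g` = the point with the signs `s`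
(`sg_surj`).  So `As R w c`.
Cocycle: `sg (e j) (c (g h)) = sg (e j) (c g) * sg (e j) (g (c h))`: let `h (e i) = e i'`, `g (e i') = e j`: `(g h)(w i) = g (sg (e i') (c h) w i') = sg (e i') (c h) *
sg (e j) (c g) * w j`, and `sg (e i') (c h) = sg (e j) (g (c h))` (`sg_act`).  `sg_inj`, `sg_add`.
Continuity: on the fixing subgroup of the finite extension `K(e i, w i)` (`IntermediateField.adjoin`, all elements are
integral) `g (w j) = w j`, `g (e j) = e j`, so `sg (e j) (c g) = 1`, `c g = 0` (`sg_inj`, `sg_zero`).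
-/

open Polynomial H16A H16C

namespace H16G

variable {E : Cub} {K Ω : Type*} [Field K] [Field Ω] [Algebra K Ω] [IsAlgClosed Ω]
  [Algebra.IsAlgebraic K Ω] [CharZero K]

omit [IsAlgClosed Ω] [Algebra.IsAlgebraic K Ω] [CharZero K] in
theorem g8_perm (R : Rts E Ω) (g : Ω ≃ₐ[K] Ω) : ∃ π : Equiv.Perm (Fin 3),
    (∀ i, g (R.e i) = R.e (π i)) ∧ ∀ i (a : E.Alg K), g (R.ev K i a) = R.ev K (π i) a := by
  choose π h1 h2 using ev_perm (L := K) R g
  have hinj : Function.Injective π := by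
    intro i j hij
    apply R.inj
    apply g.injective
    rw [h1, h1, hij]
  exact ⟨Equiv.ofBijective π (Finite.injective_iff_bijective.1 hinj), h1, h2⟩

theorem g8_signs (R : Rts E Ω) (u : (E.Alg K)ˣ) (hu : IsSquare (Algebra.norm K (u : E.Alg K)))
    (w : Fin 3 → Ω) (hw : ∀ i, w i ^ 2 = R.ev K i u) (hw0 : ∀ i, w i ≠ 0) (g : Ω ≃ₐ[K] Ω) :
    ∃ s : Fin 3 → Ω, (∀ i, s i = 1 ∨ s i = -1) ∧ ∏ i, s i = 1 ∧
      ∀ i j, g (R.e i) = R.e j → g (w i) = s j * w j := by
  obtain ⟨π, h1, h2⟩ := g8_perm R g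
  have hfix : g (∏ i, w i) = ∏ i, w i := by
    obtain ⟨r, hr⟩ := hu
    have h3 : (∏ i, w i) ^ 2 = (algebraMap K Ω r) ^ 2 := by
      rw [← Finset.prod_pow, Finset.prod_congr rfl fun i _ => hw i, ← ev_norm, hr, map_mul, pow_two]
    rcases sq_eq_sq_iff_eq_or_eq_neg.1 h3 with h4 | h4
    · rw [h4, g.commutes]
    · rw [h4, map_neg, g.commutes]
  have hsq : ∀ j, (g (w (π.symm j)) / w j) ^ 2 = 1 := by
    intro j
    have h3 : g (w (π.symm j)) ^ 2 = w j ^ 2 := by
      rw [← map_pow, hw, h2, hw, Equiv.apply_symm_apply]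
    rw [div_pow, h3, div_self (pow_ne_zero 2 (hw0 j))]
  refine ⟨fun j => g (w (π.symm j)) / w j, fun j => sq_eq_one_iff.1 (hsq j), ?_, ?_⟩
  · rw [Finset.prod_div_distrib]
    have h3 : ∏ j, g (w (π.symm j)) = g (∏ i, w i) := by
      rw [map_prod]
      exact Equiv.prod_comp π.symm (fun i => g (w i))
    rw [h3, hfix, div_self (Finset.prod_ne_zero_iff.2 fun i _ => hw0 i)]
  · intro i j hij
    have h3 : π i = j := R.inj ((h1 i).symm.trans hij)
    have h4 : π.symm j = i := by rw [← h3, Equiv.symm_apply_apply]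
    show g (w i) = g (w (π.symm j)) / w j * w j
    rw [h4, div_mul_cancel₀ _ (hw0 j)]

open Classical in
theorem exists_cocycle (hE : E.a = 0) (hd : E.disc ≠ 0) (R : Rts E Ω) (u : (E.Alg K)ˣ)
    (hu : IsSquare (Algebra.norm K (u : E.Alg K))) :
    ∃ (w : Fin 3 → Ω) (c : (Ω ≃ₐ[K] Ω) → Pt (WK E K) Ω), (∀ i, w i ^ 2 = R.ev K i u) ∧
      As R w c ∧ IsCocycle (WK E K) Ω c := by
  have hcz : CharZero Ω := charZero_of_injective_algebraMap (algebraMap K Ω).injective
  have h2 : (2 : Ω) ≠ 0 := two_ne_zero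
  have hsh : (WK E K).IsShortNF := shortK hE
  have hrt := rtv (K := K) hE R
  have hex : ∀ i, ∃ w : Ω, w ^ 2 = R.ev K i u := fun i =>
    IsAlgClosed.exists_pow_nat_eq _ (by norm_num)
  choose w hw using hex
  have hw0 : ∀ i, w i ≠ 0 := by
    intro i h0
    have h3 := hw i
    rw [h0, zero_pow two_ne_zero] at h3
    have h4 : IsUnit (R.ev K i (u : E.Alg K)) := u.isUnit.map (R.ev K i)
    rw [← h3] at h4
    exact not_isUnit_zero h4
  have hs : ∀ g : Ω ≃ₐ[K] Ω, ∃ T : Pt (WK E K) Ω, 2 • T = 0 ∧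
      ∀ i j, g (R.e i) = R.e j → g (w i) = sg (R.e j) T * w j := by
    intro g
    obtain ⟨s, s1, s2, s3⟩ := g8_signs R u hu w hw hw0 g
    obtain ⟨T, hT, hT2⟩ := sg_surj h2 hrt s s1 s2
    refine ⟨T, hT, fun i j hij => ?_⟩
    rw [hT2, s3 i j hij]
  choose c hc1 hc2 using hs
  have hAs : As R w c := ⟨hw0, hc1, hc2⟩
  have hsgK : ∀ (g : Ω ≃ₐ[K] Ω) (e : Ω) (T : Pt (WK E K) Ω), g (sg e T) = sg e T := by
    intro g e T
    rcases sg_cases e T with h3 | h3
    · rw [h3, map_one]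
    · rw [h3, map_neg, map_one]
  refine ⟨w, c, hw, hAs, ?_, ?_⟩
  · intro g h
    have h2g : 2 • act (WK E K) Ω g (c h) = 0 := by
      rw [← map_nsmul, hc1, map_zero]
    refine sg_inj h2 hrt (hc1 _) ?_ fun j => ?_
    · rw [smul_add, hc1, h2g, add_zero]
    · rw [sg_add h2 hrt (hc1 g) h2g]
      obtain ⟨i', hi'⟩ := ev_perm' (L := K) R g j
      obtain ⟨i, hi⟩ := ev_perm' (L := K) R h i'
      have h3 : (g * h) (R.e i) = R.e j := by
        rw [AlgEquiv.mul_apply, hi, hi']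
      have h4 := hc2 (g * h) i j h3
      rw [AlgEquiv.mul_apply, hc2 h i i' hi, map_mul, hsgK, hc2 g i' j hi'] at h4
      have h5 : sg (R.e j) (act (WK E K) Ω g (c h)) = sg (R.e i') (c h) := by
        rw [← hi', sg_act]
      rw [h5]
      apply mul_right_cancel₀ (hw0 j)
      rw [← h4]
      ring
  · have hint : ∀ x ∈ (Set.range R.e ∪ Set.range w), IsIntegral K x := fun x _ =>
      Algebra.IsIntegral.isIntegral x
    have hfin : Finite (Set.range R.e ∪ Set.range w : Set Ω) :=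
      ((Set.finite_range R.e).union (Set.finite_range w)).to_subtype
    refine ⟨IntermediateField.adjoin K (Set.range R.e ∪ Set.range w),
      IntermediateField.finiteDimensional_adjoin hint, fun g hg => ?_⟩
    rw [IntermediateField.mem_fixingSubgroup_iff] at hg
    have he : ∀ i, g (R.e i) = R.e i := fun i =>
      hg _ (IntermediateField.subset_adjoin K _ (Or.inl ⟨i, rfl⟩))
    have hwi : ∀ i, g (w i) = w i := fun i =>
      hg _ (IntermediateField.subset_adjoin K _ (Or.inr ⟨i, rfl⟩))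
    refine sg_inj h2 hrt (hc1 g) (smul_zero 2) fun j => ?_
    rw [sg_zero]
    have h3 := hc2 g j j (he j)
    rw [hwi] at h3
    have h4 : (sg (R.e j) (c g) - 1) * w j = 0 := by linear_combination -h3
    rcases mul_eq_zero.1 h4 with h5 | h5
    · exact sub_eq_zero.1 h5
    · exact absurd h5 (hw0 j)

end H16G
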