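import Pool.Agent.Lib.H16G.G3
import Pool.Agent.Lib.H16G.G4
import Pool.Agent.Lib.H16G.G5

/-!
# G9 (M/L): Hilbert 90: every cocycle with values in `E[2]` comes from an element of square norm

`M ⊆ Ω` finite Galois over `K`, containing the `e i` and the field of the continuity of `c` (normal closure).  `c g` depends only on
`g|M`: `c (g h) = c g + g (c h)`, `c h = 0` for `h ∈ Gal(Ω/M)`.  Choose for every `τ ∈ Gal(M/K)` (finite group) a lift `τ̂` to `Ω`.
For `b ∈ M` put `w_j(b) = ∑_{τ ∈ Gal(M/K)} sg (e j) (c τ̂) * τ(b)`.  For every `j` the function `b ↦ w_j(b)` is not zero on `M` (linear independence of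
the automorphisms `τ`, `linearIndependent_monoidHom` (Dedekind), the coefficients are `± 1`), so `ker w_j` is a proper `K`-subspace of `M`; `M` is not
the union of three proper subspaces (`K` infinite: `Subspace.biUnion_ne_univ_of_top_notMem` or by hand: choose `b_0`, then
`b_0 + t b_1`, ...: a polynomial in `t` with at most one zero for each `j`).  So there is `b` with `w_j(b) ≠ 0` for all `j`.
For `h ∈ Gal(Ω/K)`, `h (e i) = e j`: `h (w_i) = ∑_τ sg (e i) (c τ̂) * (h τ)(b)`, and `sg (e i) (c τ̂) = sg (e j) (h (c τ̂)) = sg (e j) (c (h τ̂) - c h) = sg (e j) (c (h τ̂)) * sg (e j) (c h)`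
(`sg_act`, `sg_add`); `c (h τ̂)` depends only on `h τ`: reindexing, `h (w_i) = sg (e j) (c h) * w_j`.  So `As R w c`.
`u`: `z i = (w i)²` satisfies `h (z i) = z j`; `ev_desc` gives `a ∈ K[θ]`, a unit by `ev_unit`.  `norm a = (∏ w i)²` (`ev_norm`) and `∏ w i` is fixed by
`Gal(Ω/K)` (`∏ sg = 1`: `sg_prod`), hence in `K`: the norm is a square in `K`.
-/

open Polynomial H16A H16C

namespace H16G

variable {E : Cub} {K Ω : Type*} [Field K] [Field Ω] [Algebra K Ω] [IsAlgClosed Ω]
  [Algebra.IsAlgebraic K Ω] [CharZero K]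

/-- A common nonvanishing value. -/
theorem g9_common {M : Type*} [Field M] [Algebra K M] (S : Fin 3 → M → Ω)
    (hadd : ∀ j a b, S j (a + b) = S j a + S j b)
    (hsm : ∀ j (t : K) a, S j (algebraMap K M t * a) = algebraMap K Ω t * S j a)
    (hne : ∀ j, ∃ b, S j b ≠ 0) : ∃ b, ∀ j, S j b ≠ 0 := by
  choose b hb using hne
  have hcz : CharZero Ω := charZero_of_injective_algebraMap (algebraMap K Ω).injective
  let P : Fin 3 → Polynomial Ω := fun j => C (S j (b 0)) + C (S j (b 1)) * X + C (S j (b 2)) * X ^ 2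
  have hP : ∀ j, P j ≠ 0 := by
    intro j h0
    have h1 : (P j).coeff 0 = S j (b 0) := by simp [P]
    have h2 : (P j).coeff 1 = S j (b 1) := by simp [P, coeff_C]
    have h3 : (P j).coeff 2 = S j (b 2) := by simp [P, coeff_X, coeff_C]
    rw [h0, coeff_zero] at h1 h2 h3
    fin_cases j
    · exact hb 0 h1.symm
    · exact hb 1 h2.symm
    · exact hb 2 h3.symm
  have hQ : ∏ j, P j ≠ 0 := Finset.prod_ne_zero_iff.2 fun j _ => hP j
  obtain ⟨t, ht⟩ : ∃ t : K, (∏ j, P j).eval (algebraMap K Ω t) ≠ 0 := by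
    by_contra hno
    push Not at hno
    have hinf : (Set.range (algebraMap K Ω)).Infinite :=
      Set.infinite_range_of_injective (algebraMap K Ω).injective
    apply hinf
    classical
    refine (∏ j, P j).roots.toFinset.finite_toSet.subset ?_
    rintro _ ⟨t, rfl⟩
    rw [Finset.mem_coe, Multiset.mem_toFinset, mem_roots hQ]
    exact hno t
  rw [eval_prod] at ht
  refine ⟨b 0 + algebraMap K M t * b 1 + algebraMap K M (t ^ 2) * b 2, fun j hj => ?_⟩
  apply Finset.prod_ne_zero_iff.1 ht j (Finset.mem_univ j)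
  rw [hadd, hadd, hsm, hsm] at hj
  simp only [P, eval_add, eval_mul, eval_C, eval_X, eval_pow]
  rw [map_pow] at hj
  linear_combination hj

open Classical in
theorem exists_w (hE : E.a = 0) (hd : E.disc ≠ 0) (R : Rts E Ω)
    {c : (Ω ≃ₐ[K] Ω) → Pt (WK E K) Ω} (hc : IsCocycle (WK E K) Ω c) (h2 : ∀ g, 2 • c g = 0) :
    ∃ w : Fin 3 → Ω, As R w c := by
  have hcz : CharZero Ω := charZero_of_injective_algebraMap (algebraMap K Ω).injective
  have h20 : (2 : Ω) ≠ 0 := two_ne_zero
  have hsh : (WK E K).IsShortNF := shortK hE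
  have hrt := rtv (K := K) hE R
  have hcl : IsAlgClosure K Ω := ⟨inferInstance, inferInstance⟩
  have hnor : Normal K Ω := inferInstance
  obtain ⟨hcoc, F₀, hF₀, hF⟩ := hc
  let M : IntermediateField K Ω := IntermediateField.normalClosure K F₀ Ω
  have hMle : F₀ ≤ M := IntermediateField.le_normalClosure F₀
  have hMn : Normal K M := inferInstance
  have hMf : FiniteDimensional K M := inferInstance
  let ρ : (Ω ≃ₐ[K] Ω) →* (M ≃ₐ[K] M) := AlgEquiv.restrictNormalHom M
  have hρ : ∀ (g : Ω ≃ₐ[K] Ω) (x : M), ((ρ g x : M) : Ω) = g x := fun g x =>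
    AlgEquiv.restrictNormal_commutes g M x
  have hρs : Function.Surjective ρ := AlgEquiv.restrictNormalHom_surjective Ω
  have hc0 : ∀ g, ρ g = 1 → c g = 0 := by
    intro g hg
    apply hF
    rw [IntermediateField.mem_fixingSubgroup_iff]
    intro x hx
    have h3 := hρ g ⟨x, hMle hx⟩
    rw [hg] at h3
    exact h3.symm
  have hcc : ∀ g g', ρ g = ρ g' → c g = c g' := by
    intro g g' hgg
    have h3 : g = g' * (g'⁻¹ * g) := by group
    have h4 : c (g'⁻¹ * g) = 0 := by
      apply hc0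
      rw [map_mul, map_inv, hgg, inv_mul_cancel]
    rw [h3, hcoc, h4, map_zero, add_zero]
  choose hat hhat using hρs
  let S : Fin 3 → M → Ω := fun j b => ∑ τ : M ≃ₐ[K] M, sg (R.e j) (c (hat τ)) * ((τ b : M) : Ω)
  have hsgne : ∀ (e : Ω) (T : Pt (WK E K) Ω), sg e T ≠ 0 := by
    intro e T
    rcases sg_cases e T with h3 | h3
    · rw [h3]
      exact one_ne_zero
    · rw [h3]
      exact neg_ne_zero.2 one_ne_zero
  have hsgK : ∀ (g : Ω ≃ₐ[K] Ω) (e : Ω) (T : Pt (WK E K) Ω), g (sg e T) = sg e T := by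
    intro g e T
    rcases sg_cases e T with h3 | h3
    · rw [h3, map_one]
    · rw [h3, map_neg, map_one]
  have hne : ∀ j, ∃ b, S j b ≠ 0 := by
    intro j
    by_contra hno
    push Not at hno
    let φ : (M ≃ₐ[K] M) → (M →* Ω) := fun τ => ((algebraMap M Ω : M →* Ω)).comp (τ : M →* M)
    have hφ : Function.Injective φ := by
      intro τ τ' hττ
      refine AlgEquiv.ext fun x => ?_
      have h3 := DFunLike.congr_fun hττ x
      exact (algebraMap M Ω).injective h3
    have hli := (linearIndependent_monoidHom M Ω).comp φ hφ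
    rw [Fintype.linearIndependent_iff] at hli
    refine hsgne (R.e j) (c (hat 1)) (hli (fun τ => sg (R.e j) (c (hat τ))) ?_ 1)
    funext b
    rw [Finset.sum_apply]
    exact hno b
  obtain ⟨b, hb⟩ := g9_common S
    (fun j a b => by
      show ∑ τ : M ≃ₐ[K] M, _ = ∑ τ : M ≃ₐ[K] M, _ + ∑ τ : M ≃ₐ[K] M, _
      rw [← Finset.sum_add_distrib]
      refine Finset.sum_congr rfl fun τ _ => ?_
      rw [map_add, IntermediateField.coe_add, mul_add])
    (fun j t a => by
      show ∑ τ : M ≃ₐ[K] M, _ = _ * ∑ τ : M ≃ₐ[K] M, _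
      rw [Finset.mul_sum]
      refine Finset.sum_congr rfl fun τ _ => ?_
      rw [map_mul, τ.commutes, IntermediateField.coe_mul]
      change sg (R.e j) (c (hat τ)) * (algebraMap K Ω t * _) = _
      ring)
    hne
  refine ⟨fun j => S j b, hb, h2, fun h i j hij => ?_⟩
  show h (∑ τ : M ≃ₐ[K] M, sg (R.e i) (c (hat τ)) * ((τ b : M) : Ω)) =
    sg (R.e j) (c h) * ∑ τ : M ≃ₐ[K] M, sg (R.e j) (c (hat τ)) * ((τ b : M) : Ω)
  rw [map_sum, Finset.mul_sum]
  refine Fintype.sum_equiv (Equiv.mulLeft (ρ h)) _ _ fun τ => ?_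
  rw [map_mul, hsgK, Equiv.coe_mulLeft, AlgEquiv.mul_apply, hρ, ← mul_assoc]
  congr 1
  have h3 : c (hat (ρ h * τ)) = c h + act (WK E K) Ω h (c (hat τ)) := by
    rw [← hcoc]
    apply hcc
    rw [hhat, map_mul, hhat]
  have h4 : 2 • act (WK E K) Ω h (c (hat τ)) = 0 := by
    rw [← map_nsmul, h2, map_zero]
  rw [h3, sg_add h20 hrt (h2 h) h4, ← mul_assoc, sg_sq, one_mul]
  have h5 : sg (R.e j) (act (WK E K) Ω h (c (hat τ))) = sg (R.e i) (c (hat τ)) := by
    rw [← hij, sg_act]
  exact h5.symm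

open Classical in
theorem exists_unit (hE : E.a = 0) (hd : E.disc ≠ 0) (R : Rts E Ω)
    {c : (Ω ≃ₐ[K] Ω) → Pt (WK E K) Ω} {w : Fin 3 → Ω} (hw : As R w c) :
    ∃ u : (E.Alg K)ˣ, IsSquare (Algebra.norm K (u : E.Alg K)) ∧ ∀ i, w i ^ 2 = R.ev K i u := by
  have hcz : CharZero Ω := charZero_of_injective_algebraMap (algebraMap K Ω).injective
  have h20 : (2 : Ω) ≠ 0 := two_ne_zero
  have hsh : (WK E K).IsShortNF := shortK hE
  have hrt := rtv (K := K) hE R
  obtain ⟨hw0, hc2, hw⟩ := hw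
  obtain ⟨a, ha⟩ := ev_desc (L := K) R (fun i => w i ^ 2) (by
    intro σ i j hij
    show σ (w i ^ 2) = w j ^ 2
    rw [map_pow, hw σ i j hij, mul_pow]
    have h3 := sg_sq (R.e j) (c σ)
    linear_combination (w j ^ 2) * h3)
  have hu : IsUnit a := ev_unit R a fun i => by
    rw [ha]
    exact pow_ne_zero 2 (hw0 i)
  have hfix : ∀ σ : Ω ≃ₐ[K] Ω, σ (∏ i, w i) = ∏ i, w i := by
    intro σ
    choose π h1 h2 using ev_perm (L := K) R σ
    have hinj : Function.Injective π := by
      intro i j hij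
      apply R.inj
      apply σ.injective
      rw [h1, h1, hij]
    have hbij := Finite.injective_iff_bijective.1 hinj
    rw [map_prod, Finset.prod_congr rfl fun i _ => hw σ i (π i) (h1 i),
      Function.Bijective.prod_comp hbij (fun j => sg (R.e j) (c σ) * w j), Finset.prod_mul_distrib,
      sg_prod h20 hrt (hc2 σ), one_mul]
  obtain ⟨a', ha'⟩ := ev_desc (L := K) R (fun _ => ∏ i, w i) (fun σ i j _ => hfix σ)
  have hn := ev_norm R a
  have hn' := ev_norm R a'
  rw [Finset.prod_congr rfl fun i _ => ha i, Finset.prod_pow] at hn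
  rw [Finset.prod_congr rfl fun i _ => ha' i, Finset.prod_const, Finset.card_univ,
    Fintype.card_fin] at hn'
  have hp0 : ∏ i, w i ≠ 0 := Finset.prod_ne_zero_iff.2 fun i _ => hw0 i
  refine ⟨hu.unit, ⟨Algebra.norm K a' / Algebra.norm K a, ?_⟩, fun i => ?_⟩
  · apply (algebraMap K Ω).injective
    rw [IsUnit.unit_spec, map_mul, map_div₀, hn, hn']
    field_simp
  · rw [IsUnit.unit_spec, ha]

end H16G
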